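import Pool.Agent.TH8.OR.G

/-!
Dense orbits with linear recurrences.
-/

set_option autoImplicit false

namespace Pool.Agent.TH8.OR

open MvPolynomial Filter

variable {k : Type} [Field k] {N : ℕ}

variable {p : Ideal (MvPolynomial (Fin (N + 1)) k)}
  {F : Fin (N + 1) → MvPolynomial (Fin (N + 1)) k} {d : ℕ} {x : ℕ → Fin (N + 1) → k}

/-- A dense nonconstant sequence has dense tails. -/
theorem tail (hp : p.IsPrime) (hx0 : ∀ m, x m ≠ 0)
    (hdense : ∀ (e : ℕ) (G : MvPolynomial (Fin (N + 1)) k), G.IsHomogeneous e →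
      ((∀ m, eval (x m) G = 0) ↔ G ∈ p))
    (hnc : ¬ ∀ m i j, x m i * x 0 j = x m j * x 0 i)
    {e : ℕ} {G : MvPolynomial (Fin (N + 1)) k} (hG : G.IsHomogeneous e) (hGp : G ∉ p) :
    ¬ ∀ᶠ m in atTop, eval (x m) G = 0 := by
  classical
  intro hev
  have hL : ∀ m, ∃ i j, C (x m i) * X j - C (x m j) * X i ∉ p := by
    intro m
    by_contra hcon
    push Not at hcon
    have h1 : ∀ l i j, x m i * x l j = x m j * x l i := by
      intro l i j
      have hhom : (C (x m i) * X j - C (x m j) * X i : MvPolynomial (Fin (N + 1)) k).IsHomogeneous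
          (0 + 1) :=
        ((isHomogeneous_C _ _).mul (isHomogeneous_X k j)).sub
          ((isHomogeneous_C _ _).mul (isHomogeneous_X k i))
      have h2 := (hdense _ _ hhom).2 (hcon i j) l
      simp only [map_sub, map_mul, eval_C, eval_X] at h2
      exact sub_eq_zero.1 h2
    obtain ⟨i0, hi0⟩ := Function.ne_iff.1 (hx0 m)
    have hi0' : x m i0 ≠ 0 := hi0
    apply hnc
    intro l i j
    have e1 := h1 l i0 i
    have e2 := h1 l i0 j
    have e3 := h1 0 i0 i
    have e4 := h1 0 i0 j
    have h5 : x m i0 * x m i0 * (x l i * x 0 j) = x m i0 * x m i0 * (x l j * x 0 i) := by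
      calc x m i0 * x m i0 * (x l i * x 0 j) = (x m i0 * x l i) * (x m i0 * x 0 j) := by ring
        _ = (x m i * x l i0) * (x m j * x 0 i0) := by rw [e1, e4]
        _ = (x m j * x l i0) * (x m i * x 0 i0) := by ring
        _ = (x m i0 * x l j) * (x m i0 * x 0 i) := by rw [e2, e3]
        _ = _ := by ring
    exact mul_left_cancel₀ (mul_ne_zero hi0' hi0') h5
  choose ii jj hij using hL
  obtain ⟨m0, hm0⟩ := eventually_atTop.1 hev
  let L : ℕ → MvPolynomial (Fin (N + 1)) k := fun m => C (x m (ii m)) * X (jj m)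
    - C (x m (jj m)) * X (ii m)
  have hLhom : ∀ m, (L m).IsHomogeneous 1 := by
    intro m
    have h := ((isHomogeneous_C (Fin (N + 1)) (x m (ii m))).mul (isHomogeneous_X k (jj m))).sub
      ((isHomogeneous_C (Fin (N + 1)) (x m (jj m))).mul (isHomogeneous_X k (ii m)))
    rwa [zero_add] at h
  have hP : (G * ∏ m ∈ Finset.range m0, L m) ∈ p := by
    refine (hdense _ _ (hG.mul (IsHomogeneous.prod _ _ _ fun m _ => hLhom m))).1 fun m => ?_
    rw [map_mul]
    rcases Nat.lt_or_ge m m0 with h1 | h1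
    · rw [map_prod, Finset.prod_eq_zero (Finset.mem_range.2 h1), mul_zero]
      simp only [L, map_sub, map_mul, eval_C, eval_X]
      ring
    · rw [hm0 m h1, zero_mul]
  rcases hp.mem_or_mem hP with h1 | h1
  · exact hGp h1
  · obtain ⟨m, _, hm⟩ := hp.prod_mem_iff.1 h1
    exact hij m hm

/-- values of the forms which do not belong to `p` -/
def Sm (hp : p.IsPrime) (x : ℕ → Fin (N + 1) → k) : Submonoid (ℕ → k) where
  carrier := {u | ∃ (e : ℕ) (G : MvPolynomial (Fin (N + 1)) k), G.IsHomogeneous e ∧ G ∉ p ∧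
    u = fun m => eval (x m) G}
  one_mem' := ⟨0, 1, isHomogeneous_one _ _, fun h => hp.ne_top ((Ideal.eq_top_iff_one p).2 h), by
    funext m
    simp⟩
  mul_mem' := by
    rintro _ _ ⟨e, G, hG, hGp, rfl⟩ ⟨e', G', hG', hGp', rfl⟩
    refine ⟨e + e', G * G', hG.mul hG', fun h => (hp.mem_or_mem h).elim hGp hGp', ?_⟩
    funext m
    simp

/-- values of the polynomials in the index, with forms as coefficients -/
def Smt (hp : p.IsPrime) (τ : ℕ → k) (x : ℕ → Fin (N + 1) → k) : Submonoid (ℕ → k) where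
  carrier := {u | ∃ (e : ℕ) (P : Polynomial (MvPolynomial (Fin (N + 1)) k)),
    (∀ i, (P.coeff i).IsHomogeneous e) ∧ P ∉ p.map Polynomial.C ∧
    u = fun m : ℕ => (P.map (eval (x m))).eval (τ m)}
  one_mem' := by
    refine ⟨0, 1, fun i => ?_, fun h => ?_, ?_⟩
    · rw [Polynomial.coeff_one]
      split_ifs
      · exact isHomogeneous_one _ _
      · exact isHomogeneous_zero _ _ _
    · have h1 := Ideal.mem_map_C_iff.1 h 0
      rw [Polynomial.coeff_one_zero] at h1
      exact hp.ne_top ((Ideal.eq_top_iff_one p).2 h1)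
    · funext m
      simp
  mul_mem' := by
    rintro _ _ ⟨e, P, hP, hPp, rfl⟩ ⟨e', P', hP', hPp', rfl⟩
    refine ⟨e + e', P * P', fun i => ?_, fun h => ?_, ?_⟩
    · rw [Polynomial.coeff_mul]
      exact IsHomogeneous.sum _ _ _ fun j _ => (hP j.1).mul (hP' j.2)
    · have := hp
      have hq : (p.map (Polynomial.C : _ →+* Polynomial (MvPolynomial (Fin (N + 1)) k))).IsPrime :=
        Ideal.isPrime_map_C_of_isPrime
      exact (hq.mem_or_mem h).elim hPp hPp'
    · funext m
      simp

/-- density of the graph, for the tails -/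
theorem tail_graph {τ : ℕ → k} (hp : p.IsPrime)
    (hdense : ∀ (e : ℕ) (P : Polynomial (MvPolynomial (Fin (N + 1)) k)),
      (∀ i, (P.coeff i).IsHomogeneous e) →
      (∀ m : ℕ, (P.map (eval (x m))).eval (τ m) = 0) → ∀ i, P.coeff i ∈ p)
    {e : ℕ} {P : Polynomial (MvPolynomial (Fin (N + 1)) k)}
    (hP : ∀ i, (P.coeff i).IsHomogeneous e) (hPp : P ∉ p.map Polynomial.C) :
    ¬ ∀ᶠ m : ℕ in atTop, (P.map (eval (x m))).eval (τ m) = 0 := by
  classical
  intro hev
  obtain ⟨m0, hm0⟩ := eventually_atTop.1 hev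
  let Q0 : Polynomial k := ∏ m ∈ Finset.range m0, (Polynomial.X - Polynomial.C (τ m))
  let Q : Polynomial (MvPolynomial (Fin (N + 1)) k) := Q0.map C
  have hmonic : Q.Monic := (Polynomial.monic_prod_of_monic _ _ fun m _ =>
    Polynomial.monic_X_sub_C _).map _
  have hQe : ∀ m : ℕ, (Q.map (eval (x m))).eval (τ m) = Q0.eval (τ m) := by
    intro m
    have h1 : (eval (x m)).comp (C : k →+* MvPolynomial (Fin (N + 1)) k) = RingHom.id k := by
      ext a
      simp
    rw [Polynomial.map_map, h1, Polynomial.map_id]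
  have h1 := hdense e (P * Q) (fun i => by
    rw [Polynomial.coeff_mul]
    refine IsHomogeneous.sum _ _ _ fun j _ => ?_
    have h := (hP j.1).mul (isHomogeneous_C (Fin (N + 1)) (Q0.coeff j.2))
    rw [add_zero] at h
    rwa [Polynomial.coeff_map]) (fun m => by
      rw [Polynomial.map_mul, Polynomial.eval_mul, hQe]
      rcases Nat.lt_or_ge m m0 with h2 | h2
      · rw [Polynomial.eval_prod, Finset.prod_eq_zero (Finset.mem_range.2 h2), mul_zero]
        simp
      · rw [hm0 m h2, zero_mul])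
  have h2 : P * Q ∈ p.map Polynomial.C := Ideal.mem_map_C_iff.2 h1
  have := hp
  have hq : (p.map (Polynomial.C : _ →+* Polynomial (MvPolynomial (Fin (N + 1)) k))).IsPrime :=
    Ideal.isPrime_map_C_of_isPrime
  rcases hq.mem_or_mem h2 with h3 | h3
  · exact hPp h3
  · have h4 := Ideal.mem_map_C_iff.1 h3 Q.natDegree
    rw [Polynomial.coeff_natDegree, hmonic.leadingCoeff] at h4
    exact hp.ne_top ((Ideal.eq_top_iff_one p).2 h4)

section main

variable (hp : p.IsPrime) (hF : ∀ j, (F j).IsHomogeneous d)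
  (hdom : ∀ (e : ℕ) (H : MvPolynomial (Fin (N + 1)) k), H.IsHomogeneous e →
      (aeval F H ∈ p ↔ H ∈ p)) (hx0 : ∀ m, x m ≠ 0)
  (horb : ∀ m i j, eval (x m) (F i) * x (m + 1) j = eval (x m) (F j) * x (m + 1) i)
  (hdense : ∀ (e : ℕ) (G : MvPolynomial (Fin (N + 1)) k), G.IsHomogeneous e →
      ((∀ m, eval (x m) G = 0) ↔ G ∈ p))

include hx0 hdense in
theorem exists_X : ∃ j, X j ∉ p := by
  obtain ⟨j, hj⟩ := Function.ne_iff.1 (hx0 0)
  refine ⟨j, fun h => hj ?_⟩
  have h1 := (hdense 1 (X j) (isHomogeneous_X k j)).2 h 0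
  rwa [eval_X] at h1

include hF hdom hx0 hdense in
theorem exists_iter (n : ℕ) : ∃ j, iter F n j ∉ p := by
  obtain ⟨j, hj⟩ := exists_X hx0 hdense
  exact ⟨j, iter_notMem (fun e H hH => (hdom e H hH).1) hF hj n⟩

include hF hx0 horb hdense in
/-- the variety is a point -/
theorem point (hc : ∀ m i j, x m i * x 0 j = x m j * x 0 i) (n : ℕ) : GivenBy p F n 0 := by
  obtain ⟨j, hj⟩ := Function.ne_iff.1 (hx0 0)
  have hj' : x 0 j ≠ 0 := hj
  refine ⟨fun j => C (x 0 j), fun j => isHomogeneous_C _ _, ⟨j, fun h => hj ?_⟩, ?_⟩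
  · have h1 := (hdense 0 _ (isHomogeneous_C (Fin (N + 1)) (x 0 j))).2 h 0
    rwa [eval_C] at h1
  · intro i l
    refine (hdense (0 + d ^ n) _ (((isHomogeneous_C _ _).mul (iter_hom hF n l)).sub
      ((isHomogeneous_C _ _).mul (iter_hom hF n i)))).1 fun m => ?_
    simp only [map_sub, map_mul, eval_C]
    have h1 := orb hF hx0 horb n m
    obtain ⟨j1, hj1⟩ := Function.ne_iff.1 (hx0 (m + n))
    have hj1' : x (m + n) j1 ≠ 0 := hj1
    have hq : ∀ i, x 0 i * x (m + n) j1 = x 0 j1 * x (m + n) i := fun i => by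
      have := hc (m + n) i j1
      linear_combination -this
    have e1 := h1 l j1
    have e2 := h1 i j1
    refine (mul_left_cancel₀ hj1' ?_)
    have f1 := hq i
    have f2 := hq l
    rw [mul_zero]
    have : x (m + n) j1 * (x (m + n) j1 * (x 0 i * eval (x m) (iter F n l)
        - x 0 l * eval (x m) (iter F n i))) = 0 := by
      calc x (m + n) j1 * (x (m + n) j1 * (x 0 i * eval (x m) (iter F n l)
          - x 0 l * eval (x m) (iter F n i)))
          = (x 0 i * x (m + n) j1) * (eval (x m) (iter F n l) * x (m + n) j1)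
            - (x 0 l * x (m + n) j1) * (eval (x m) (iter F n i) * x (m + n) j1) := by ring
        _ = (x 0 j1 * x (m + n) i) * (eval (x m) (iter F n j1) * x (m + n) l)
            - (x 0 j1 * x (m + n) l) * (eval (x m) (iter F n j1) * x (m + n) i) := by
              rw [f1, f2, e1, e2]
        _ = 0 := by ring
    exact (mul_eq_zero.1 this).resolve_left hj1'

include hp hF hdom hx0 horb hdense in
/-- slow growth of the degrees -/
theorem slow {τ : ℕ → k} (hτ : Function.Injective τ) {α β : k}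
    (hαβ : ∀ m, τ (m + 1) = α * τ m + β) {c : ℕ} (hrec : ∀ j, PRecD τ c fun m => x m j) :
    ∃ a b : ℕ, ∀ n, ∃ e ≤ a + c * b * n, GivenBy p F n e := by
  by_cases hnc : ∀ m i j, x m i * x 0 j = x m j * x 0 i
  · exact ⟨0, 0, fun n => ⟨0, Nat.zero_le _, point hF hx0 horb hdense hnc n⟩⟩
  · obtain ⟨R, _, _, π, h1, h2⟩ := exists_R (Sm hp x) (by
      rintro _ ⟨e, G, hG, hGp, rfl⟩
      exact tail hp hx0 hdense hnc hG hGp)
    obtain ⟨a, b, _, h3⟩ := assemble hτ hαβ hF hx0 horb (exists_iter hF hdom hx0 hdense) π h1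
      (fun e G hG => by
        rw [pi_mv]
        constructor
        · intro h0
          by_contra hGp
          exact h2 _ ⟨e, G, hG, hGp, rfl⟩ h0
        · intro hGp
          have h3 : (fun m => eval (x m) G) = 0 := funext ((hdense e G hG).2 hGp)
          rw [h3, map_zero]) hrec
    exact ⟨a, b, h3⟩

include hp hF hdom hx0 horb hdense in
/-- bounded degrees -/
theorem bounded_graph {τ : ℕ → k} (hτ : Function.Injective τ) {α β : k}
    (hαβ : ∀ m, τ (m + 1) = α * τ m + β) {c : ℕ} (hrec : ∀ j, PRecD τ c fun m => x m j)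
    (hgraph : ∀ (e : ℕ) (P : Polynomial (MvPolynomial (Fin (N + 1)) k)),
      (∀ i, (P.coeff i).IsHomogeneous e) →
      (∀ m : ℕ, (P.map (eval (x m))).eval (τ m) = 0) → ∀ i, P.coeff i ∈ p) :
    ∃ a : ℕ, ∀ n, ∃ e ≤ a, GivenBy p F n e := by
  classical
  obtain ⟨R, _, _, π, h1, h2⟩ := exists_R (Smt hp τ x) (by
    rintro _ ⟨e, P, hP, hPp, rfl⟩
    exact tail_graph hp hgraph hP hPp)
  have hker : ∀ (e : ℕ) (G : MvPolynomial (Fin (N + 1)) k), G.IsHomogeneous e →
      (aeval (fun j => π fun m => x m j) G = 0 ↔ G ∈ p) := by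
    intro e G hG
    rw [pi_mv]
    constructor
    · intro h0
      by_contra hGp
      refine h2 _ ⟨e, Polynomial.C G, fun i => ?_, fun h => hGp ?_, ?_⟩ h0
      · rw [Polynomial.coeff_C]
        split_ifs
        · exact hG
        · exact isHomogeneous_zero _ _ _
      · have := Ideal.mem_map_C_iff.1 h 0
        rwa [Polynomial.coeff_C_zero] at this
      · funext m
        simp
    · intro hGp
      have h3 : (fun m => eval (x m) G) = 0 := funext ((hdense e G hG).2 hGp)
      rw [h3, map_zero]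
  obtain ⟨a, b, h3, h4⟩ := assemble hτ hαβ hF hx0 horb (exists_iter hF hdom hx0 hdense) π h1 hker hrec
  have hb : b = 0 := by
    refine h3 fun r e G hG hsum i hi => ?_
    rw [hker e _ (hG i)]
    by_contra hGp
    let P : Polynomial (MvPolynomial (Fin (N + 1)) k) :=
      ∑ i ∈ Finset.range r, Polynomial.monomial i (G i)
    have hco : ∀ j, P.coeff j = if j < r then G j else 0 := by
      intro j
      simp only [P, Polynomial.finsetSum_coeff, Polynomial.coeff_monomial]
      split_ifs with hj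
      · rw [Finset.sum_eq_single j]
        · simp
        · intro l _ hl
          simp [hl]
        · intro h
          exact absurd (Finset.mem_range.2 hj) h
      · refine Finset.sum_eq_zero fun l hl => ?_
        have : l ≠ j := by
          have := Finset.mem_range.1 hl
          omega
        simp [this]
    refine h2 _ ⟨e, P, fun j => ?_, fun h => hGp ?_, rfl⟩ ?_
    · rw [hco]
      split_ifs
      · exact hG j
      · exact isHomogeneous_zero _ _ _
    · have := Ideal.mem_map_C_iff.1 h i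
      rwa [hco, if_pos hi] at this
    · have h5 : (fun m : ℕ => (P.map (eval (x m))).eval (τ m))
          = ∑ i ∈ Finset.range r, τ ^ i * fun m => eval (x m) (G i) := by
        funext m
        simp only [P, Polynomial.map_sum, Polynomial.map_monomial, Polynomial.eval_finsetSum,
          Polynomial.eval_monomial, Finset.sum_apply, Pi.mul_apply, Pi.pow_apply]
        refine Finset.sum_congr rfl fun i _ => ?_
        ring
      rw [h5, map_sum, ← hsum]
      refine Finset.sum_congr rfl fun i _ => ?_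
      rw [map_mul, map_pow, pi_mv]
  refine ⟨a, fun n => ?_⟩
  obtain ⟨e, he, h5⟩ := h4 n
  rw [hb, mul_zero, zero_mul, add_zero] at he
  exact ⟨e, he, h5⟩

end main

end Pool.Agent.TH8.OR
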