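import Pool.Agent.TH8.OR.D2
import Pool.Agent.TH8.OR.E

/-!
Dense orbits with linear recurrences whose coefficients are in the orbit of a rational function.
-/

set_option autoImplicit false

namespace Pool.Agent.TH8.OR

open MvPolynomial Filter

variable {k : Type} [Field k] {N : ℕ}

variable {p : Ideal (MvPolynomial (Fin (N + 1)) k)}
  {F : Fin (N + 1) → MvPolynomial (Fin (N + 1)) k} {d : ℕ} {x : ℕ → Fin (N + 1) → k}

section main

variable (hp : p.IsPrime) (hF : ∀ j, (F j).IsHomogeneous d)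
  (hdom : ∀ (e : ℕ) (H : MvPolynomial (Fin (N + 1)) k), H.IsHomogeneous e →
      (aeval F H ∈ p ↔ H ∈ p)) (hx0 : ∀ m, x m ≠ 0)
  (horb : ∀ m i j, eval (x m) (F i) * x (m + 1) j = eval (x m) (F j) * x (m + 1) i)
  (hdense : ∀ (e : ℕ) (G : MvPolynomial (Fin (N + 1)) k), G.IsHomogeneous e →
      ((∀ m, eval (x m) G = 0) ↔ G ∈ p))

include hp hF hdom hx0 horb hdense in
/-- slow growth of the degrees -/
theorem slow2 {τ : ℕ → k} (hτ : Function.Injective τ) {δ : ℕ} {g1 g2 : Polynomial k}
    (hg1 : g1.natDegree ≤ δ) (hg2 : g2.natDegree ≤ δ) (hg0 : ∀ m, g2.eval (τ m) ≠ 0)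
    (hg : ∀ m, τ (m + 1) * g2.eval (τ m) = g1.eval (τ m)) {c : ℕ} (hrec : ∀ j, PRecD τ c fun m => x m j) :
    ∃ a b : ℕ, ∀ n, ∃ e ≤ a + c * b * S δ n, GivenBy p F n e := by
  by_cases hnc : ∀ m i j, x m i * x 0 j = x m j * x 0 i
  · exact ⟨0, 0, fun n => ⟨0, Nat.zero_le _, point hF hx0 horb hdense hnc n⟩⟩
  · obtain ⟨R, _, _, π, h1, h2⟩ := exists_R (Sm hp x) (by
      rintro _ ⟨e, G, hG, hGp, rfl⟩
      exact tail hp hx0 hdense hnc hG hGp)
    obtain ⟨a, b, _, h3⟩ := assemble2 hτ hg1 hg2 hg0 hg hF hx0 horb (exists_iter hF hdom hx0 hdense) π h1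
      (fun e G hG => by
        rw [pi_mv]
        constructor
        · intro h0
          by_contra hGp
          exact h2 _ ⟨e, G, hG, hGp, rfl⟩ h0
        · intro hGp
          have h3 : (fun m => eval (x m) G) = 0 := funext ((hdense e G hG).2 hGp)
          rw [h3, map_zero]) hrec
    exact ⟨a, b, h3⟩

include hp hF hdom hx0 horb hdense in
/-- bounded degrees -/
theorem bounded_graph2 {τ : ℕ → k} (hτ : Function.Injective τ) {δ : ℕ} {g1 g2 : Polynomial k}
    (hg1 : g1.natDegree ≤ δ) (hg2 : g2.natDegree ≤ δ) (hg0 : ∀ m, g2.eval (τ m) ≠ 0)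
    (hg : ∀ m, τ (m + 1) * g2.eval (τ m) = g1.eval (τ m)) {c : ℕ} (hrec : ∀ j, PRecD τ c fun m => x m j)
    (hgraph : ∀ (e : ℕ) (P : Polynomial (MvPolynomial (Fin (N + 1)) k)),
      (∀ i, (P.coeff i).IsHomogeneous e) →
      (∀ m : ℕ, (P.map (eval (x m))).eval (τ m) = 0) → ∀ i, P.coeff i ∈ p) :
    ∃ a : ℕ, ∀ n, ∃ e ≤ a, GivenBy p F n e := by
  classical
  obtain ⟨R, _, _, π, h1, h2⟩ := exists_R (Smt hp τ x) (by
    rintro _ ⟨e, P, hP, hPp, rfl⟩
    exact tail_graph hp hgraph hP hPp)
  have hker : ∀ (e : ℕ) (G : MvPolynomial (Fin (N + 1)) k), G.IsHomogeneous e →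
      (aeval (fun j => π fun m => x m j) G = 0 ↔ G ∈ p) := by
    intro e G hG
    rw [pi_mv]
    constructor
    · intro h0
      by_contra hGp
      refine h2 _ ⟨e, Polynomial.C G, fun i => ?_, fun h => hGp ?_, ?_⟩ h0
      · rw [Polynomial.coeff_C]
        split_ifs
        · exact hG
        · exact isHomogeneous_zero _ _ _
      · have := Ideal.mem_map_C_iff.1 h 0
        rwa [Polynomial.coeff_C_zero] at this
      · funext m
        simp
    · intro hGp
      have h3 : (fun m => eval (x m) G) = 0 := funext ((hdense e G hG).2 hGp)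
      rw [h3, map_zero]
  obtain ⟨a, b, h3, h4⟩ := assemble2 hτ hg1 hg2 hg0 hg hF hx0 horb (exists_iter hF hdom hx0 hdense) π h1 hker hrec
  have hb : b = 0 := by
    refine h3 fun r e G hG hsum i hi => ?_
    rw [hker e _ (hG i)]
    by_contra hGp
    let P : Polynomial (MvPolynomial (Fin (N + 1)) k) :=
      ∑ i ∈ Finset.range r, Polynomial.monomial i (G i)
    have hco : ∀ j, P.coeff j = if j < r then G j else 0 := by
      intro j
      simp only [P, Polynomial.finsetSum_coeff, Polynomial.coeff_monomial]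
      split_ifs with hj
      · rw [Finset.sum_eq_single j]
        · simp
        · intro l _ hl
          simp [hl]
        · intro h
          exact absurd (Finset.mem_range.2 hj) h
      · refine Finset.sum_eq_zero fun l hl => ?_
        have : l ≠ j := by
          have := Finset.mem_range.1 hl
          omega
        simp [this]
    refine h2 _ ⟨e, P, fun j => ?_, fun h => hGp ?_, rfl⟩ ?_
    · rw [hco]
      split_ifs
      · exact hG j
      · exact isHomogeneous_zero _ _ _
    · have := Ideal.mem_map_C_iff.1 h i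
      rwa [hco, if_pos hi] at this
    · have h5 : (fun m : ℕ => (P.map (eval (x m))).eval (τ m))
          = ∑ i ∈ Finset.range r, τ ^ i * fun m => eval (x m) (G i) := by
        funext m
        simp only [P, Polynomial.map_sum, Polynomial.map_monomial, Polynomial.eval_finsetSum,
          Polynomial.eval_monomial, Finset.sum_apply, Pi.mul_apply, Pi.pow_apply]
        refine Finset.sum_congr rfl fun i _ => ?_
        ring
      rw [h5, map_sum, ← hsum]
      refine Finset.sum_congr rfl fun i _ => ?_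
      rw [map_mul, map_pow, pi_mv]
  refine ⟨a, fun n => ?_⟩
  obtain ⟨e, he, h5⟩ := h4 n
  rw [hb, mul_zero, zero_mul, add_zero] at he
  exact ⟨e, he, h5⟩

end main

end Pool.Agent.TH8.OR
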