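import Mathlib

/-!
Linear algebra over the function field of a projective variety, with control of the degrees.
-/

set_option autoImplicit false

namespace Pool.Agent.TH8.OR

open MvPolynomial

variable {k R : Type} [Field k] [Field R] [Algebra k R] {N : ℕ}

/-- sums of products of powers `t ^ i`, `i ≤ E`, and forms of degree `e` at `ξ` -/
def T (ξ : Fin (N + 1) → R) (t : R) (e E : ℕ) : Submodule k R :=
  Submodule.span k {z | ∃ i ≤ E, ∃ G : MvPolynomial (Fin (N + 1)) k, G.IsHomogeneous e ∧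
    z = t ^ i * aeval ξ G}

variable {ξ : Fin (N + 1) → R} {t : R}

theorem mem_T {e E i : ℕ} (hi : i ≤ E) {G : MvPolynomial (Fin (N + 1)) k}
    (hG : G.IsHomogeneous e) : t ^ i * aeval ξ G ∈ (T ξ t e E : Submodule k R) :=
  Submodule.subset_span ⟨i, hi, G, hG, rfl⟩

theorem T_mono {e E E' : ℕ} (h : E ≤ E') : (T ξ t e E : Submodule k R) ≤ T ξ t e E' := by
  refine Submodule.span_mono ?_
  rintro z ⟨i, hi, G, hG, rfl⟩
  exact ⟨i, hi.trans h, G, hG, rfl⟩

theorem T_mul {e E e' E' : ℕ} {z w : R} (hz : z ∈ (T ξ t e E : Submodule k R))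
    (hw : w ∈ (T ξ t e' E' : Submodule k R)) :
    z * w ∈ (T ξ t (e + e') (E + E') : Submodule k R) := by
  have h1 : (T ξ t e E : Submodule k R) * T ξ t e' E' ≤ T ξ t (e + e') (E + E') := by
    unfold T
    rw [Submodule.span_mul_span]
    refine Submodule.span_mono ?_
    rintro _ ⟨_, ⟨i, hi, G, hG, rfl⟩, _, ⟨i', hi', G', hG', rfl⟩, rfl⟩
    refine ⟨i + i', by omega, G * G', hG.mul hG', ?_⟩
    simp only [map_mul]
    ring
  exact h1 (Submodule.mul_mem_mul hz hw)

theorem T_one : (1 : R) ∈ (T ξ t 0 0 : Submodule k R) := by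
  have h := mem_T (k := k) (ξ := ξ) (t := t) (le_refl 0) (isHomogeneous_one (Fin (N + 1)) k)
  simpa using h

theorem T_rep {e E : ℕ} {z : R} (hz : z ∈ (T ξ t e E : Submodule k R)) :
    ∃ G : ℕ → MvPolynomial (Fin (N + 1)) k, (∀ i, (G i).IsHomogeneous e) ∧
      z = ∑ i ∈ Finset.range (E + 1), t ^ i * aeval ξ (G i) := by
  unfold T at hz
  induction hz using Submodule.span_induction with
  | mem z hz =>
    obtain ⟨i, hi, G, hG, rfl⟩ := hz
    refine ⟨fun j => if j = i then G else 0, fun j => ?_, ?_⟩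
    · by_cases hj : j = i
      · simpa [hj] using hG
      · simpa [hj] using isHomogeneous_zero (Fin (N + 1)) k e
    · rw [Finset.sum_eq_single i]
      · simp
      · intro j _ hj
        simp [hj]
      · intro h
        exact absurd (Finset.mem_range.2 (by omega)) h
  | zero => exact ⟨fun _ => 0, fun _ => isHomogeneous_zero _ _ _, by simp⟩
  | add z w _ _ h1 h2 =>
    obtain ⟨G, e1, e2⟩ := h1
    obtain ⟨H, e3, e4⟩ := h2
    refine ⟨fun i => G i + H i, fun i => (e1 i).add (e3 i), ?_⟩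
    rw [e2, e4, ← Finset.sum_add_distrib]
    refine Finset.sum_congr rfl fun i _ => ?_
    rw [map_add, mul_add]
  | smul a z _ h1 =>
    obtain ⟨G, e1, e2⟩ := h1
    refine ⟨fun i => C a * G i, fun i => ?_, ?_⟩
    · have := (isHomogeneous_C (Fin (N + 1)) a).mul (e1 i)
      rwa [zero_add] at this
    · rw [e2, Finset.smul_sum]
      refine Finset.sum_congr rfl fun i _ => ?_
      rw [map_mul, aeval_C, Algebra.smul_def]
      ring

/-- the field of quotients of elements of equal degree -/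
def M (k : Type) [Field k] [Algebra k R] (ξ : Fin (N + 1) → R) (t : R) : Subfield R where
  carrier := {r | ∃ e E, ∃ g ∈ (T ξ t e E : Submodule k R), ∃ h ∈ (T ξ t e E : Submodule k R),
    h ≠ 0 ∧ h * r = g}
  mul_mem' := by
    rintro a b ⟨e, E, g, hg, h, hh, h0, h1⟩ ⟨e', E', g', hg', h', hh', h0', h1'⟩
    refine ⟨e + e', E + E', g * g', T_mul hg hg', h * h', T_mul hh hh', mul_ne_zero h0 h0', ?_⟩
    rw [← h1, ← h1']
    ring
  one_mem' := ⟨0, 0, 1, T_one, 1, T_one, one_ne_zero, one_mul _⟩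
  add_mem' := by
    rintro a b ⟨e, E, g, hg, h, hh, h0, h1⟩ ⟨e', E', g', hg', h', hh', h0', h1'⟩
    refine ⟨e + e', E + E', g * h' + h * g', add_mem (T_mul hg hh') (T_mul hh hg'), h * h',
      T_mul hh hh', mul_ne_zero h0 h0', ?_⟩
    rw [← h1, ← h1']
    ring
  zero_mem' := ⟨0, 0, 0, zero_mem _, 1, T_one, one_ne_zero, by ring⟩
  neg_mem' := by
    rintro a ⟨e, E, g, hg, h, hh, h0, h1⟩
    exact ⟨e, E, -g, neg_mem hg, h, hh, h0, by rw [← h1]; ring⟩
  inv_mem' := by
    rintro a ⟨e, E, g, hg, h, hh, h0, h1⟩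
    by_cases ha : a = 0
    · rw [ha, inv_zero]
      exact ⟨0, 0, 0, zero_mem _, 1, T_one, one_ne_zero, by ring⟩
    · refine ⟨e, E, h, hh, g, hg, ?_, ?_⟩
      · rw [← h1]
        exact mul_ne_zero h0 ha
      · rw [← h1]
        field_simp

theorem div_mem_M {e E : ℕ} {g h : R} (hg : g ∈ (T ξ t e E : Submodule k R))
    (hh : h ∈ (T ξ t e E : Submodule k R)) : g / h ∈ M k ξ t := by
  by_cases h0 : h = 0
  · rw [h0, div_zero]
    exact zero_mem _
  · exact ⟨e, E, g, hg, h, hh, h0, by field_simp⟩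

theorem poly_mem_T {b : Polynomial k} {E : ℕ} (hb : b.natDegree ≤ E) :
    Polynomial.aeval t b ∈ (T ξ t 0 E : Submodule k R) := by
  rw [Polynomial.aeval_eq_sum_range]
  refine Submodule.sum_mem _ fun i hi => Submodule.smul_mem _ _ ?_
  have h := mem_T (k := k) (ξ := ξ) (t := t) (E := E) (i := i)
    (by have := Finset.mem_range.1 hi; omega) (isHomogeneous_one (Fin (N + 1)) k)
  simpa using h

theorem poly_mem_M (b : Polynomial k) : Polynomial.aeval t b ∈ M k ξ t := by
  have h := div_mem_M (poly_mem_T (ξ := ξ) (t := t) (le_refl b.natDegree))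
    (T_mono (Nat.zero_le _) (T_one (k := k) (ξ := ξ) (t := t)))
  simpa using h

/-- common denominators -/
theorem common {ι : Type} [Fintype ι] (a : ι → R) (ha : ∀ i, a i ∈ M k ξ t) :
    ∃ e E, ∃ h ∈ (T ξ t e E : Submodule k R), h ≠ 0 ∧
      ∀ i, h * a i ∈ (T ξ t e E : Submodule k R) := by
  classical
  suffices H : ∀ s : Finset ι, ∃ e E, ∃ h ∈ (T ξ t e E : Submodule k R), h ≠ 0 ∧
      ∀ i ∈ s, h * a i ∈ (T ξ t e E : Submodule k R) by
    obtain ⟨e, E, h, h1, h2, h3⟩ := H Finset.univ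
    exact ⟨e, E, h, h1, h2, fun i => h3 i (Finset.mem_univ i)⟩
  intro s
  induction s using Finset.induction_on with
  | empty => exact ⟨0, 0, 1, T_one, one_ne_zero, fun i hi => absurd hi (Finset.notMem_empty i)⟩
  | insert i0 s _ ih =>
    obtain ⟨e, E, h, h1, h2, h3⟩ := ih
    obtain ⟨e', E', g, hg, h', hh', h0', h1'⟩ := ha i0
    refine ⟨e + e', E + E', h * h', T_mul h1 hh', mul_ne_zero h2 h0', fun i hi => ?_⟩
    rcases Finset.mem_insert.1 hi with rfl | hi
    · have h4 : h * h' * a i = h * g := by rw [← h1']; ring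
      rw [h4]
      exact T_mul h1 hg
    · have h4 : h * h' * a i = h * a i * h' := by ring
      rw [h4]
      exact T_mul (h3 i hi) hh'

/-- linear functionals -/
theorem coords {ι : Type} [Fintype ι] (L : Subfield R) (u : ι → R) :
    ∃ (s : ℕ) (a : Fin s → ι → R), (∀ l i, a l i ∈ L) ∧ ∀ c : ι → R, (∀ i, c i ∈ L) →
      (∑ i, c i * u i = 0 ↔ ∀ l, ∑ i, c i * a l i = 0) := by
  classical
  let V : Submodule L R := Submodule.span L (Set.range u)
  have hV : FiniteDimensional L V := FiniteDimensional.span_of_finite L (Set.finite_range u)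
  let bas := Module.finBasis L V
  have hu : ∀ i, u i ∈ V := fun i => Submodule.subset_span ⟨i, rfl⟩
  refine ⟨_, fun l i => ((bas.repr ⟨u i, hu i⟩ l : L) : R), fun l i => (bas.repr _ l).2, ?_⟩
  intro c hc
  let c' : ι → L := fun i => ⟨c i, hc i⟩
  have h1 : ∑ i, c i * u i = ((∑ i, c' i • (⟨u i, hu i⟩ : V) : V) : R) := by
    rw [Submodule.coe_sum]
    rfl
  have h2 : ∀ l, ∑ i, c i * ((bas.repr ⟨u i, hu i⟩ l : L) : R)
      = ((bas.repr (∑ i, c' i • (⟨u i, hu i⟩ : V)) l : L) : R) := by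
    intro l
    rw [map_sum, Finsupp.finsetSum_apply]
    push_cast
    refine Finset.sum_congr rfl fun i _ => ?_
    rw [map_smul, Finsupp.smul_apply]
    rfl
  rw [h1]
  simp only [h2]
  constructor
  · intro h3 l
    have h4 : (∑ i, c' i • (⟨u i, hu i⟩ : V) : V) = 0 := Subtype.ext h3
    rw [h4, map_zero]
    rfl
  · intro h3
    have h4 : bas.repr (∑ i, c' i • (⟨u i, hu i⟩ : V)) = 0 := by
      ext l
      exact h3 l
    have h5 := (LinearEquiv.map_eq_zero_iff bas.repr).1 h4
    rw [h5]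
    rfl

end Pool.Agent.TH8.OR
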