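import Pool.Agent.TH8.OR.A

/-!
Elimination of the index, and the bound for the degrees.
-/

set_option autoImplicit false

namespace Pool.Agent.TH8.OR

open MvPolynomial

variable {k R : Type} [Field k] [Field R] [Algebra k R] {N : ℕ}
variable {ξ : Fin (N + 1) → R} {t : R}

/-- the powers `t ^ i`, `i < r`, are independent over the forms -/
def Ind (k : Type) [Field k] [Algebra k R] (ξ : Fin (N + 1) → R) (t : R) (r : ℕ) : Prop :=
  ∀ (e : ℕ) (G : ℕ → MvPolynomial (Fin (N + 1)) k), (∀ i, (G i).IsHomogeneous e) →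
    ∑ i ∈ Finset.range r, t ^ i * aeval ξ (G i) = 0 → ∀ i < r, aeval ξ (G i) = 0

/-- reduction modulo the equation of `t` -/
theorem reduce {e1 s : ℕ} {H : ℕ → MvPolynomial (Fin (N + 1)) k}
    (hH : ∀ i, (H i).IsHomogeneous e1)
    (hrel : ∑ i ∈ Finset.range (s + 1 + 1), t ^ i * aeval ξ (H i) = 0) {e E : ℕ} {z : R}
    (hz : z ∈ (T ξ t e E : Submodule k R)) :
    aeval ξ (H (s + 1)) ^ E * z ∈ (T ξ t (e + e1 * E) s : Submodule k R) := by
  have hc : aeval ξ (H (s + 1)) ∈ (T ξ t e1 0 : Submodule k R) := by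
    have := mem_T (k := k) (ξ := ξ) (t := t) (le_refl 0) (hH (s + 1))
    simpa using this
  have hcp : ∀ n, aeval ξ (H (s + 1)) ^ n ∈ (T ξ t (e1 * n) 0 : Submodule k R) := by
    intro n
    induction n with
    | zero => simpa using (T_one (k := k) (ξ := ξ) (t := t))
    | succ n ih =>
      have h := T_mul ih hc
      rw [← pow_succ] at h
      have h2 : e1 * n + e1 = e1 * (n + 1) := by ring
      rwa [h2] at h
  have hstep : ∀ (e' : ℕ) (w : R), w ∈ (T ξ t e' s : Submodule k R) →
      aeval ξ (H (s + 1)) * (t * w) ∈ (T ξ t (e' + e1) s : Submodule k R) := by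
    intro e' w hw
    unfold T at hw
    induction hw using Submodule.span_induction with
    | mem w hw =>
      obtain ⟨i, hi, G, hG, rfl⟩ := hw
      rcases Nat.lt_or_ge i s with hs | hs
      · have h := mem_T (k := k) (ξ := ξ) (t := t) (show i + 1 ≤ s by omega) (hG.mul (hH (s + 1)))
        rw [map_mul] at h
        have h2 : aeval ξ (H (s + 1)) * (t * (t ^ i * aeval ξ G))
            = t ^ (i + 1) * (aeval ξ G * aeval ξ (H (s + 1))) := by ring
        rwa [h2]
      · have his : i = s := by omega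
        subst his
        rw [Finset.sum_range_succ] at hrel
        have h2 : aeval ξ (H (i + 1)) * (t * (t ^ i * aeval ξ G))
            = -(∑ j ∈ Finset.range (i + 1), t ^ j * aeval ξ (G * H j)) := by
          have h3 : t ^ (i + 1) * aeval ξ (H (i + 1))
              = -∑ j ∈ Finset.range (i + 1), t ^ j * aeval ξ (H j) := by
            linear_combination hrel
          have h4 : aeval ξ (H (i + 1)) * (t * (t ^ i * aeval ξ G))
              = aeval ξ G * (t ^ (i + 1) * aeval ξ (H (i + 1))) := by ring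
          rw [h4, h3, mul_neg, Finset.mul_sum]
          congr 1
          refine Finset.sum_congr rfl fun j _ => ?_
          rw [map_mul]
          ring
        rw [h2]
        refine neg_mem (Submodule.sum_mem _ fun j hj => ?_)
        exact mem_T (by have := Finset.mem_range.1 hj; omega) (hG.mul (hH j))
    | zero => simp
    | add w w' _ _ h1 h2 =>
      have h3 : aeval ξ (H (s + 1)) * (t * (w + w'))
          = aeval ξ (H (s + 1)) * (t * w) + aeval ξ (H (s + 1)) * (t * w') := by ring
      rw [h3]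
      exact add_mem h1 h2
    | smul a w _ h1 =>
      have h3 : aeval ξ (H (s + 1)) * (t * (a • w)) = a • (aeval ξ (H (s + 1)) * (t * w)) := by
        simp only [Algebra.smul_def]
        ring
      rw [h3]
      exact Submodule.smul_mem _ _ h1
  have hpow : ∀ (G : MvPolynomial (Fin (N + 1)) k), G.IsHomogeneous e → ∀ i : ℕ,
      aeval ξ (H (s + 1)) ^ i * (t ^ i * aeval ξ G) ∈ (T ξ t (e + e1 * i) s : Submodule k R) := by
    intro G hG i
    induction i with
    | zero =>
      have h := mem_T (k := k) (ξ := ξ) (t := t) (Nat.zero_le s) hG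
      simpa using h
    | succ i ih =>
      have h := hstep _ _ ih
      have h2 : e + e1 * i + e1 = e + e1 * (i + 1) := by ring
      rw [h2] at h
      have h3 : aeval ξ (H (s + 1)) ^ (i + 1) * (t ^ (i + 1) * aeval ξ G)
          = aeval ξ (H (s + 1)) * (t * (aeval ξ (H (s + 1)) ^ i * (t ^ i * aeval ξ G))) := by ring
      rwa [h3]
  unfold T at hz
  induction hz using Submodule.span_induction with
  | mem z hz =>
    obtain ⟨i, hi, G, hG, rfl⟩ := hz
    have h := T_mul (hcp (E - i)) (hpow G hG i)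
    have h2 : e1 * (E - i) + (e + e1 * i) = e + e1 * E := by
      obtain ⟨j, rfl⟩ := Nat.exists_eq_add_of_le hi
      rw [Nat.add_sub_cancel_left]
      ring
    rw [h2, zero_add] at h
    have h3 : aeval ξ (H (s + 1)) ^ E * (t ^ i * aeval ξ G)
        = aeval ξ (H (s + 1)) ^ (E - i) * (aeval ξ (H (s + 1)) ^ i * (t ^ i * aeval ξ G)) := by
      have h5 : aeval ξ (H (s + 1)) ^ E
          = aeval ξ (H (s + 1)) ^ (E - i) * aeval ξ (H (s + 1)) ^ i := by
        rw [← pow_add, Nat.sub_add_cancel hi]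
      rw [h5]
      ring
    rwa [h3]
  | zero => simp
  | add z z' _ _ h1 h2 =>
    rw [mul_add]
    exact add_mem h1 h2
  | smul a z _ h1 =>
    rw [mul_smul_comm]
    exact Submodule.smul_mem _ _ h1

/-- the index is eliminated -/
theorem final {p : Ideal (MvPolynomial (Fin (N + 1)) k)}
    (hker : ∀ (e : ℕ) (G : MvPolynomial (Fin (N + 1)) k), G.IsHomogeneous e →
      (aeval ξ G = 0 ↔ G ∈ p)) {s d : ℕ} (hI : Ind k ξ t (s + 1)) {e : ℕ}
    {F : Fin (N + 1) → MvPolynomial (Fin (N + 1)) k} (hF : ∀ j, (F j).IsHomogeneous e)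
    {v : Fin (N + 1) → R} (hv : ∀ j, v j ∈ (T ξ t d s : Submodule k R)) (hv0 : v ≠ 0)
    (hrel : ∀ i j, aeval ξ (F i) * v j = aeval ξ (F j) * v i) :
    ∃ G : Fin (N + 1) → MvPolynomial (Fin (N + 1)) k, (∀ j, (G j).IsHomogeneous d) ∧
      (∃ j, G j ∉ p) ∧ ∀ i j, G i * F j - G j * F i ∈ p := by
  choose G h1 h2 using fun j => T_rep (hv j)
  obtain ⟨j0, hj0⟩ := Function.ne_iff.1 hv0
  have h3 : ∃ a < s + 1, aeval ξ (G j0 a) ≠ 0 := by
    by_contra hcon
    push Not at hcon
    apply hj0
    rw [h2 j0]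
    refine Finset.sum_eq_zero fun a ha => ?_
    rw [hcon a (Finset.mem_range.1 ha), mul_zero]
  obtain ⟨a, ha, ha0⟩ := h3
  refine ⟨fun j => G j a, fun j => h1 j a, ⟨j0, fun h => ha0 ((hker _ _ (h1 j0 a)).2 h)⟩,
    fun i j => ?_⟩
  have h4 := hI (e + d) (fun b => F i * G j b - F j * G i b)
    (fun b => ((hF i).mul (h1 j b)).sub ((hF j).mul (h1 i b))) (by
      have h5 := hrel i j
      rw [h2 j, h2 i, Finset.mul_sum, Finset.mul_sum, ← sub_eq_zero, ← Finset.sum_sub_distrib] at h5
      rw [← h5]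
      refine Finset.sum_congr rfl fun b _ => ?_
      rw [map_sub, map_mul, map_mul]
      ring) a ha
  have h6 : (F i * G j a - F j * G i a).IsHomogeneous (e + d) :=
    ((hF i).mul (h1 j a)).sub ((hF j).mul (h1 i a))
  have h7 := (hker _ _ h6).1 h4
  have h8 : G i a * F j - G j a * F i = -(F i * G j a - F j * G i a) := by ring
  rw [h8]
  exact p.neg_mem h7

/-- the bound for the degrees -/
theorem core {p : Ideal (MvPolynomial (Fin (N + 1)) k)}
    (hker : ∀ (e : ℕ) (G : MvPolynomial (Fin (N + 1)) k), G.IsHomogeneous e →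
      (aeval ξ G = 0 ↔ G ∈ p)) {ι : Type} [Fintype ι] (u : ι → R) :
    ∃ D0 D1 E0 : ℕ, ((∀ r, Ind k ξ t r) → D1 = 0) ∧ ∀ (E : ℕ) (y : Fin (N + 1) → R), y ≠ 0 →
      (∀ j, ∃ c : ι → Polynomial k, (∀ l, (c l).natDegree ≤ E) ∧
        y j = ∑ l, Polynomial.aeval t (c l) * u l) →
      ∀ (e : ℕ) (F : Fin (N + 1) → MvPolynomial (Fin (N + 1)) k), (∀ j, (F j).IsHomogeneous e) →
      (∃ j, F j ∉ p) → (∀ i j, aeval ξ (F i) * y j = aeval ξ (F j) * y i) →
      ∃ (d : ℕ) (G : Fin (N + 1) → MvPolynomial (Fin (N + 1)) k), d ≤ D0 + D1 * (E0 + E) ∧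
        (∀ j, (G j).IsHomogeneous d) ∧ (∃ j, G j ∉ p) ∧ ∀ i j, G i * F j - G j * F i ∈ p := by
  classical
  obtain ⟨s, a, ha, hco⟩ := coords (M k ξ t) u
  obtain ⟨D0, E0, h, hh, hh0, hha⟩ := common (k := k) (ξ := ξ) (t := t)
    (fun q : Fin s × ι => a q.1 q.2) fun q => ha q.1 q.2
  -- the vector of elements of bounded degree
  have key : ∀ (E : ℕ) (y : Fin (N + 1) → R), y ≠ 0 →
      (∀ j, ∃ c : ι → Polynomial k, (∀ l, (c l).natDegree ≤ E) ∧
        y j = ∑ l, Polynomial.aeval t (c l) * u l) →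
      ∀ (e : ℕ) (F : Fin (N + 1) → MvPolynomial (Fin (N + 1)) k), (∀ j, (F j).IsHomogeneous e) →
      (∃ j, F j ∉ p) → (∀ i j, aeval ξ (F i) * y j = aeval ξ (F j) * y i) →
      ∃ v : Fin (N + 1) → R, (∀ j, v j ∈ (T ξ t D0 (E0 + E) : Submodule k R)) ∧ v ≠ 0 ∧
        ∀ i j, aeval ξ (F i) * v j = aeval ξ (F j) * v i := by
    intro E y hy hc e F hF hF0 hrel
    choose c hc1 hc2 using hc
    obtain ⟨i0, hi0⟩ := hF0
    have hρ : aeval ξ (F i0) ≠ 0 := fun h0 => hi0 ((hker _ _ (hF i0)).1 h0)
    have hy0 : y i0 ≠ 0 := by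
      intro h0
      apply hy
      funext j
      have h1 := hrel i0 j
      rw [h0, mul_zero] at h1
      exact (mul_eq_zero.1 h1).resolve_left hρ
    have hFT : ∀ j, aeval ξ (F j) ∈ (T ξ t e 0 : Submodule k R) := by
      intro j
      have := mem_T (k := k) (ξ := ξ) (t := t) (le_refl 0) (hF j)
      simpa using this
    have h1 : ∃ l, ∑ i, Polynomial.aeval t (c i0 i) * a l i ≠ 0 := by
      by_contra hcon
      push Not at hcon
      apply hy0
      rw [hc2 i0]
      exact (hco (fun i => Polynomial.aeval t (c i0 i)) fun i => poly_mem_M _).2 hcon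
    obtain ⟨l, hl⟩ := h1
    refine ⟨fun j => h * ∑ i, Polynomial.aeval t (c j i) * a l i, fun j => ?_, ?_, ?_⟩
    · beta_reduce
      rw [Finset.mul_sum]
      refine Submodule.sum_mem _ fun i _ => ?_
      have h2 := T_mul (hha (l, i)) (poly_mem_T (ξ := ξ) (t := t) (hc1 j i))
      rw [add_zero] at h2
      have h3 : h * (Polynomial.aeval t (c j i) * a l i)
          = h * a l i * Polynomial.aeval t (c j i) := by ring
      rw [h3]
      exact h2
    · intro h0
      have h2 := congrFun h0 i0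
      exact mul_ne_zero hh0 hl h2
    · intro i j
      have h2 := (hco (fun b => aeval ξ (F i) / aeval ξ (F i0) * Polynomial.aeval t (c j b)
        - aeval ξ (F j) / aeval ξ (F i0) * Polynomial.aeval t (c i b)) fun b =>
          sub_mem (mul_mem (div_mem_M (hFT i) (hFT i0)) (poly_mem_M _))
            (mul_mem (div_mem_M (hFT j) (hFT i0)) (poly_mem_M _))).1 (by
          have h3 : ∑ b, (aeval ξ (F i) / aeval ξ (F i0) * Polynomial.aeval t (c j b)
              - aeval ξ (F j) / aeval ξ (F i0) * Polynomial.aeval t (c i b)) * u b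
              = aeval ξ (F i) / aeval ξ (F i0) * y j - aeval ξ (F j) / aeval ξ (F i0) * y i := by
            rw [hc2 i, hc2 j, Finset.mul_sum, Finset.mul_sum, ← Finset.sum_sub_distrib]
            refine Finset.sum_congr rfl fun b _ => ?_
            ring
          rw [h3, div_mul_eq_mul_div, div_mul_eq_mul_div, hrel i j, sub_self]) l
      have h4 : ∑ b, (aeval ξ (F i) / aeval ξ (F i0) * Polynomial.aeval t (c j b)
          - aeval ξ (F j) / aeval ξ (F i0) * Polynomial.aeval t (c i b)) * a l b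
          = aeval ξ (F i) / aeval ξ (F i0) * (∑ b, Polynomial.aeval t (c j b) * a l b)
            - aeval ξ (F j) / aeval ξ (F i0) * ∑ b, Polynomial.aeval t (c i b) * a l b := by
        rw [Finset.mul_sum, Finset.mul_sum, ← Finset.sum_sub_distrib]
        refine Finset.sum_congr rfl fun b _ => ?_
        ring
      rw [h4] at h2
      have h5 : aeval ξ (F i) * (∑ b, Polynomial.aeval t (c j b) * a l b)
          = aeval ξ (F j) * ∑ b, Polynomial.aeval t (c i b) * a l b := by
        field_simp at h2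
        linear_combination h2
      simp only
      linear_combination h * h5
  by_cases hall : ∀ r, Ind k ξ t r
  · refine ⟨D0, 0, E0, fun _ => rfl, ?_⟩
    intro E y hy hc e F hF hF0 hrel
    obtain ⟨v, e1, e2, e3⟩ := key E y hy hc e F hF hF0 hrel
    obtain ⟨G, g1, g2, g3⟩ := final hker (hall _) hF e1 e2 e3
    exact ⟨D0, G, by omega, g1, g2, g3⟩
  · push Not at hall
    have hmin := Nat.find_spec hall
    have hmin' := fun r (hr : r < Nat.find hall) => not_not.1 (Nat.find_min hall hr)
    obtain ⟨r, hr⟩ : ∃ r, Nat.find hall = r := ⟨_, rfl⟩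
    rw [hr] at hmin hmin'
    unfold Ind at hmin
    push Not at hmin
    obtain ⟨e1, H, hH, hsum, i, hi, hne⟩ := hmin
    -- `r ≥ 2`
    obtain ⟨s', rfl⟩ : ∃ s', r = s' + 1 + 1 := by
      rcases r with _ | _ | s'
      · omega
      · exfalso
        rw [Finset.sum_range_one, pow_zero, one_mul] at hsum
        have : i = 0 := by omega
        rw [this] at hne
        exact hne hsum
      · exact ⟨s', rfl⟩
    have hI : Ind k ξ t (s' + 1) := hmin' _ (by omega)
    have hlead : aeval ξ (H (s' + 1)) ≠ 0 := by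
      intro h0
      rw [Finset.sum_range_succ, h0, mul_zero, add_zero] at hsum
      have h1 := hI e1 H hH hsum
      rcases Nat.lt_or_ge i (s' + 1) with h2 | h2
      · exact hne (h1 i h2)
      · have : i = s' + 1 := by omega
        rw [this] at hne
        exact hne h0
    refine ⟨D0, e1, E0, fun hcon => absurd hall (by push Not; exact hcon), ?_⟩
    intro E y hy hc e F hF hF0 hrel
    obtain ⟨v, f1, f2, f3⟩ := key E y hy hc e F hF hF0 hrel
    obtain ⟨G, g1, g2, g3⟩ := final hker hI hF
      (v := fun j => aeval ξ (H (s' + 1)) ^ (E0 + E) * v j)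
      (fun j => reduce hH hsum (f1 j)) (by
        intro h0
        apply f2
        funext j
        have h1 := congrFun h0 j
        exact (mul_eq_zero.1 h1).resolve_left (pow_ne_zero _ hlead)) (by
        intro i j
        linear_combination (aeval ξ (H (s' + 1)) ^ (E0 + E)) * f3 i j)
    exact ⟨_, G, le_refl _, g1, g2, g3⟩

end Pool.Agent.TH8.OR
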