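import Pool.Agent.TH8.OR.B

/-!
Sequences: the ring of sequences modulo a prime ideal, and iterated linear recurrences.
-/

set_option autoImplicit false

namespace Pool.Agent.TH8.OR

open MvPolynomial Filter

variable {k : Type} [Field k] {N : ℕ}

/-- sequences which are eventually zero -/
def EZ (k : Type) [Field k] : Ideal (ℕ → k) where
  carrier := {u | ∀ᶠ m in atTop, u m = 0}
  add_mem' := by
    intro a b ha hb
    filter_upwards [ha, hb] with m h1 h2
    rw [Pi.add_apply, h1, h2, add_zero]
  zero_mem' := Eventually.of_forall fun _ => rfl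
  smul_mem' := by
    intro c a ha
    filter_upwards [ha] with m h1
    rw [smul_eq_mul, Pi.mul_apply, h1, mul_zero]

theorem exists_R (Sm : Submonoid (ℕ → k)) (hS : ∀ u ∈ Sm, ¬ ∀ᶠ m in atTop, u m = 0) :
    ∃ (R : Type) (_ : Field R) (_ : Algebra k R) (π : (ℕ → k) →ₐ[k] R),
      (∀ u : ℕ → k, (∀ᶠ m in atTop, u m = 0) → π u = 0) ∧ ∀ u ∈ Sm, π u ≠ 0 := by
  obtain ⟨q, hq, h1, h2⟩ := Ideal.exists_le_prime_disjoint (EZ k) Sm
    (Set.disjoint_left.2 fun u hu hu' => hS u hu' hu)
  have : q.IsPrime := hq
  let A := (ℕ → k) ⧸ q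
  let π : (ℕ → k) →ₐ[k] FractionRing A :=
    (IsScalarTower.toAlgHom k A (FractionRing A)).comp (Ideal.Quotient.mkₐ k q)
  have hπ : ∀ u, π u = 0 ↔ u ∈ q := by
    intro u
    change algebraMap A (FractionRing A) (Ideal.Quotient.mk q u) = 0 ↔ _
    rw [← Ideal.Quotient.eq_zero_iff_mem]
    exact (injective_iff_map_eq_zero' _).1 (IsFractionRing.injective A (FractionRing A)) _
  refine ⟨FractionRing A, inferInstance, inferInstance, π, fun u hu => (hπ u).2 (h1 hu),
    fun u hu h0 => Set.disjoint_left.1 h2 ((hπ u).1 h0) hu⟩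

theorem aeval_seq (v : ℕ → k) (q : Polynomial k) :
    (Polynomial.aeval v q : ℕ → k) = fun m => q.eval (v m) := by
  funext m
  have h := Polynomial.aeval_algHom_apply (Pi.evalAlgHom k (fun _ : ℕ => k) m) v q
  have h2 : (Pi.evalAlgHom k (fun _ : ℕ => k) m) (Polynomial.aeval v q)
      = (Polynomial.aeval v q : ℕ → k) m := rfl
  rw [← h2, ← h]
  rfl

theorem aeval_seq_mv (x : ℕ → Fin (N + 1) → k) (G : MvPolynomial (Fin (N + 1)) k) :
    (aeval (fun j => fun m => x m j) G : ℕ → k) = fun m => eval (x m) G := by
  funext m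
  have h := MvPolynomial.comp_aeval_apply (f := fun j => fun m => x m j)
    (Pi.evalAlgHom k (fun _ : ℕ => k) m) G
  have h2 : (Pi.evalAlgHom k (fun _ : ℕ => k) m) (aeval (fun j => fun m => x m j) G)
      = (aeval (fun j => fun m => x m j) G : ℕ → k) m := rfl
  rw [← h2, h]
  rfl

section proj

variable {R : Type} [Field R] [Algebra k R] (π : (ℕ → k) →ₐ[k] R) (τ : ℕ → k)

theorem pi_poly (q : Polynomial k) :
    Polynomial.aeval (π τ) q = π fun m => q.eval (τ m) := by
  rw [Polynomial.aeval_algHom_apply, aeval_seq]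

theorem pi_mv (x : ℕ → Fin (N + 1) → k) (G : MvPolynomial (Fin (N + 1)) k) :
    aeval (fun j => π fun m => x m j) G = π fun m => eval (x m) G := by
  have h := MvPolynomial.comp_aeval_apply (f := fun j => fun m => x m j) π G
  rw [aeval_seq_mv] at h
  exact h.symm

theorem poly_ne_zero {τ : ℕ → k} (hτ : Function.Injective τ) {q : Polynomial k} (hq : q ≠ 0) :
    Polynomial.aeval (π τ) q ≠ 0 ∨ ∃ u : ℕ → k, (∀ᶠ m in atTop, u m = 0) ∧ π u ≠ 0 := by
  classical
  by_contra hcon
  push Not at hcon
  obtain ⟨h1, h2⟩ := hcon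
  have hfin : {m : ℕ | q.eval (τ m) = 0}.Finite := by
    have h3 : (q.roots.toFinset : Set k).Finite := Finset.finite_toSet _
    refine (h3.preimage (f := τ) hτ.injOn).subset ?_
    intro m hm
    simp only [Set.mem_preimage, Finset.mem_coe, Multiset.mem_toFinset]
    exact (Polynomial.mem_roots hq).2 hm
  have h3 : ∀ᶠ m : ℕ in atTop, q.eval (τ m) ≠ 0 := by
    rw [← Nat.cofinite_eq_atTop]
    exact hfin.compl_mem_cofinite
  rw [pi_poly] at h1
  have h4 : π (fun m : ℕ => q.eval (τ m)) * π (fun m : ℕ => (q.eval (τ m))⁻¹) = 1 := by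
    rw [← map_mul]
    have h5 : (fun m : ℕ => q.eval (τ m)) * (fun m : ℕ => (q.eval (τ m))⁻¹)
        = 1 + ((fun m : ℕ => q.eval (τ m)) * (fun m : ℕ => (q.eval (τ m))⁻¹) - 1) := by ring
    rw [h5, map_add, map_one, h2 _ ?_, add_zero]
    filter_upwards [h3] with m hm
    rw [Pi.sub_apply, Pi.mul_apply, Pi.one_apply, mul_inv_cancel₀ hm, sub_self]
  rw [h1, zero_mul] at h4
  exact zero_ne_one h4

end proj

/-- The sequence satisfies a nontrivial linear recurrence whose coefficients are polynomials of
degree at most `C` in `τ m`. -/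
def PRecD (τ : ℕ → k) (C : ℕ) (f : ℕ → k) : Prop :=
  ∃ (r : ℕ) (a : ℕ → Polynomial k), (∃ i ≤ r, a i ≠ 0) ∧ (∀ i ≤ r, (a i).natDegree ≤ C) ∧
    ∀ m : ℕ, ∑ i ∈ Finset.range (r + 1), (a i).eval (τ m) * f (m + i) = 0

theorem PRecD.normal {τ : ℕ → k} {C : ℕ} {f : ℕ → k} (hf : PRecD τ C f) :
    ∃ (r : ℕ) (a : ℕ → Polynomial k), a r ≠ 0 ∧ (∀ i ≤ r, (a i).natDegree ≤ C) ∧
      ∀ m : ℕ, ∑ i ∈ Finset.range (r + 1), (a i).eval (τ m) * f (m + i) = 0 := by
  obtain ⟨r, a, h1, h2, h3⟩ := hf
  induction r with
  | zero =>
    obtain ⟨i, hi, h4⟩ := h1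
    have : i = 0 := by omega
    subst this
    exact ⟨0, a, h4, h2, h3⟩
  | succ r ih =>
    by_cases h0 : a (r + 1) = 0
    · refine ih ?_ (fun i hi => h2 i (by omega)) fun m => ?_
      · obtain ⟨i, hi, h4⟩ := h1
        refine ⟨i, ?_, h4⟩
        rcases Nat.lt_or_ge i (r + 1) with h5 | h5
        · omega
        · exfalso
          have : i = r + 1 := by omega
          rw [this] at h4
          exact h4 h0
      · have h5 := h3 m
        rw [Finset.sum_range_succ, h0, Polynomial.eval_zero, zero_mul, add_zero] at h5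
        exact h5
    · exact ⟨r + 1, a, h0, h2, h3⟩

/-- a shift operator on the polynomials in `τ` -/
structure Sh (τ : ℕ → k) (sh : ℕ → Polynomial k → Polynomial k) : Prop where
  deg : ∀ n q, (sh n q).natDegree ≤ q.natDegree
  ev : ∀ n q m, (sh n q).eval (τ m) = q.eval (τ (m + n))
  ne : ∀ n q, q ≠ 0 → sh n q ≠ 0

theorem exists_sh {τ : ℕ → k} (hτ : Function.Injective τ) {α β : k}
    (h : ∀ m, τ (m + 1) = α * τ m + β) : ∃ sh, Sh τ sh := by
  have h1 : ∀ n, ∃ A B : k, ∀ m, τ (m + n) = A * τ m + B := by
    intro n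
    induction n with
    | zero => exact ⟨1, 0, fun m => by simp⟩
    | succ n ih =>
      obtain ⟨A, B, hAB⟩ := ih
      refine ⟨α * A, α * B + β, fun m => ?_⟩
      rw [← add_assoc, h, hAB]
      ring
  choose A B hAB using h1
  refine ⟨fun n q => q.comp (Polynomial.C (A n) * Polynomial.X + Polynomial.C (B n)), ?_, ?_, ?_⟩
  · intro n q
    refine Polynomial.natDegree_comp_le.trans ?_
    have := Polynomial.natDegree_linear_le (a := A n) (b := B n)
    calc _ ≤ q.natDegree * 1 := Nat.mul_le_mul_left _ this
      _ = _ := mul_one _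
  · intro n q m
    rw [Polynomial.eval_comp]
    simp [hAB]
  · intro n q hq h0
    apply hq
    refine Polynomial.eq_zero_of_infinite_isRoot q (Set.Infinite.mono ?_
      (Set.infinite_range_of_injective (f := fun m => τ (m + n))
        fun a b hab => Nat.add_right_cancel (hτ hab)))
    rintro _ ⟨m, rfl⟩
    have h2 := congrArg (Polynomial.eval (τ m)) h0
    rw [Polynomial.eval_comp, Polynomial.eval_zero] at h2
    simpa [hAB] using h2

section rec

variable {R : Type} [Field R] [Algebra k R] (π : (ℕ → k) →ₐ[k] R)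

theorem rec_rep (hπ : ∀ u : ℕ → k, (∀ᶠ m in atTop, u m = 0) → π u = 0)
    {τ : ℕ → k} (hτ : Function.Injective τ) {sh : ℕ → Polynomial k → Polynomial k} (hsh : Sh τ sh)
    {C : ℕ} {f : ℕ → k} (hf : PRecD τ C f) :
    ∃ r : ℕ, ∀ n : ℕ, ∃ z : Polynomial k, z ≠ 0 ∧ z.natDegree ≤ C * n ∧
      ∃ b : Fin r → Polynomial k, (∀ l, (b l).natDegree ≤ C * n) ∧
        Polynomial.aeval (π τ) z * π (fun m => f (m + n)) =
          ∑ l, Polynomial.aeval (π τ) (b l) * π (fun m => f (m + l)) := by
  classical
  obtain ⟨r, a, h1, h2, h3⟩ := hf.normal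
  set t := π τ with ht
  have hrec : ∀ n : ℕ, ∑ i ∈ Finset.range (r + 1),
      Polynomial.aeval t (sh n (a i)) * π (fun m => f (m + (n + i))) = 0 := by
    intro n
    have h4 : (0 : R) = π (∑ i ∈ Finset.range (r + 1),
        (fun m : ℕ => (sh n (a i)).eval (τ m)) *
          fun m : ℕ => f (m + (n + i))) := by
      rw [← map_zero π]
      congr 1
      funext m
      rw [Finset.sum_apply, Pi.zero_apply]
      have h5 := h3 (m + n)
      rw [← h5]
      refine Finset.sum_congr rfl fun i _ => ?_
      rw [Pi.mul_apply, hsh.ev, add_assoc]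
    rw [h4, map_sum]
    refine Finset.sum_congr rfl fun i _ => ?_
    rw [map_mul, ht, pi_poly]
  rcases Nat.eq_zero_or_pos r with h0 | hr
  · refine ⟨0, fun n => ⟨1, one_ne_zero, by simp, fun l => l.elim0, fun l => l.elim0, ?_⟩⟩
    subst h0
    have h4 := hrec n
    rw [zero_add, Finset.sum_range_one, add_zero] at h4
    have h5 : sh n (a 0) ≠ 0 := by
      intro h6
      apply h1
      exact absurd h6 (hsh.ne n _ h1)
    have h6 : Polynomial.aeval t (sh n (a 0)) ≠ 0 := by
      rcases poly_ne_zero π hτ h5 with h7 | ⟨u, hu, hu'⟩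
      · exact h7
      · exact absurd (hπ u hu) hu'
    rw [(mul_eq_zero.1 h4).resolve_left h6]
    simp
  · refine ⟨r, ?_⟩
    have key : ∀ n : ℕ, ∃ z : Polynomial k, z ≠ 0 ∧ z.natDegree ≤ C * n ∧
        ∀ i < r, ∃ b : Fin r → Polynomial k, (∀ l, (b l).natDegree ≤ C * n) ∧
        Polynomial.aeval t z * π (fun m => f (m + (n + i))) =
          ∑ l, Polynomial.aeval t (b l) * π (fun m => f (m + l)) := by
      intro n
      induction n with
      | zero =>
        refine ⟨1, one_ne_zero, by simp, fun i hi => ⟨fun l => if l = ⟨i, hi⟩ then 1 else 0,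
          fun l => ?_, ?_⟩⟩
        · by_cases hl : l = ⟨i, hi⟩
          · simp [hl]
          · simp [hl]
        · rw [Finset.sum_eq_single ⟨i, hi⟩]
          · simp
          · intro l _ hl
            simp [hl]
          · intro h
            exact absurd (Finset.mem_univ _) h
      | succ n ih =>
        obtain ⟨z, hz, hzd, hb⟩ := ih
        have hT : sh n (a r) ≠ 0 := by
          intro h6
          apply h1
          exact absurd h6 (hsh.ne n _ h1)
        refine ⟨sh n (a r) * z, mul_ne_zero hT hz, ?_, ?_⟩
        · refine Polynomial.natDegree_mul_le.trans ?_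
          have hdg := hsh.deg n (a r)
          have := h2 r le_rfl
          rw [mul_add, mul_one]
          omega
        · intro i hi
          rcases Nat.lt_or_ge (i + 1) r with hi' | hi'
          · obtain ⟨b, hb1, hb2⟩ := hb (i + 1) hi'
            refine ⟨fun l => sh n (a r) * b l, fun l => ?_, ?_⟩
            · refine Polynomial.natDegree_mul_le.trans ?_
              have hdg := hsh.deg n (a r)
              have := h2 r le_rfl
              have := hb1 l
              rw [mul_add, mul_one]
              omega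
            · have h4 : n + 1 + i = n + (i + 1) := by ring
              rw [h4, map_mul, mul_assoc, hb2, Finset.mul_sum]
              refine Finset.sum_congr rfl fun l _ => ?_
              rw [map_mul, mul_assoc]
          · have h4 : n + 1 + i = n + r := by omega
            rw [h4]
            choose b hb1 hb2 using fun i' : Fin r => hb i' i'.2
            refine ⟨fun l => -∑ i' : Fin r, sh n (a i') * b i' l,
              fun l => ?_, ?_⟩
            · rw [Polynomial.natDegree_neg]
              refine Polynomial.natDegree_sum_le_of_forall_le _ _ fun i' _ => ?_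
              refine Polynomial.natDegree_mul_le.trans ?_
              have hdg := hsh.deg n (a i')
              have := h2 i' i'.2.le
              have := hb1 i' l
              rw [mul_add, mul_one]
              omega
            · have h5 := hrec n
              rw [Finset.sum_range_succ, Finset.sum_range] at h5
              have h6 : ∑ l, Polynomial.aeval t
                  (-∑ i' : Fin r, sh n (a i') * b i' l)
                    * π (fun m => f (m + l))
                  = -∑ i' : Fin r, Polynomial.aeval t (sh n (a i')) *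
                    (Polynomial.aeval t z * π (fun m => f (m + (n + i')))) := by
                simp only [hb2, map_neg, map_sum, map_mul, neg_mul, Finset.sum_neg_distrib,
                  Finset.sum_mul, Finset.mul_sum]
                rw [Finset.sum_comm]
                congr 1
                refine Finset.sum_congr rfl fun i' _ => Finset.sum_congr rfl fun l _ => ?_
                ring
              rw [h6, map_mul]
              have h7 : ∑ i' : Fin r, Polynomial.aeval t (sh n (a i')) *
                    (Polynomial.aeval t z * π (fun m => f (m + (n + i'))))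
                  = Polynomial.aeval t z * ∑ i' : Fin r,
                    Polynomial.aeval t (sh n (a i')) *
                      π (fun m => f (m + (n + i'))) := by
                rw [Finset.mul_sum]
                refine Finset.sum_congr rfl fun i' _ => ?_
                ring
              rw [h7]
              linear_combination (Polynomial.aeval t z) * h5
    intro n
    obtain ⟨z, e1, e2, e3⟩ := key n
    obtain ⟨b, e4, e5⟩ := e3 0 hr
    exact ⟨z, e1, e2, b, e4, by simpa using e5⟩

end rec

end Pool.Agent.TH8.OR
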