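import Pool.Agent.TH8.OR.G

/-!
Iterated linear recurrences whose coefficients are polynomials in the points of an orbit of a
rational function.
-/

set_option autoImplicit false

namespace Pool.Agent.TH8.OR

open MvPolynomial Filter

variable {k : Type} [Field k] {N : ℕ}

/-- `1 + δ + … + δ ^ (n - 1)` -/
def S (δ n : ℕ) : ℕ := ∑ i ∈ Finset.range n, δ ^ i

theorem S_succ (δ n : ℕ) : S δ (n + 1) = S δ n + δ ^ n := Finset.sum_range_succ _ _

/-- homogenization -/
noncomputable def hmg (D : ℕ) (P Q q : Polynomial k) : Polynomial k :=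
  ∑ j ∈ Finset.range (D + 1), Polynomial.C (q.coeff j) * (P ^ j * Q ^ (D - j))

theorem hmg_deg {D E : ℕ} {P Q : Polynomial k} (hP : P.natDegree ≤ E) (hQ : Q.natDegree ≤ E)
    (q : Polynomial k) : (hmg D P Q q).natDegree ≤ D * E := by
  refine Polynomial.natDegree_sum_le_of_forall_le _ _ fun j hj => ?_
  have hj' : j ≤ D := by
    have := Finset.mem_range.1 hj
    omega
  refine (Polynomial.natDegree_C_mul_le _ _).trans ?_
  refine Polynomial.natDegree_mul_le.trans ?_
  have h1 := (Polynomial.natDegree_pow_le (p := P) (n := j)).trans (Nat.mul_le_mul_left j hP)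
  have h2 := (Polynomial.natDegree_pow_le (p := Q) (n := D - j)).trans
    (Nat.mul_le_mul_left (D - j) hQ)
  calc _ ≤ j * E + (D - j) * E := Nat.add_le_add h1 h2
    _ = D * E := by rw [← add_mul, Nat.add_sub_cancel' hj']

theorem hmg_eval {D : ℕ} {P Q q : Polynomial k} (hq : q.natDegree ≤ D) {s t : k}
    (h : s * Q.eval t = P.eval t) : (hmg D P Q q).eval t = Q.eval t ^ D * q.eval s := by
  rw [Polynomial.eval_eq_sum_range' (n := D + 1) (by omega) s, hmg, Polynomial.eval_finsetSum,
    Finset.mul_sum]
  refine Finset.sum_congr rfl fun j hj => ?_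
  have hj' : j ≤ D := by
    have := Finset.mem_range.1 hj
    omega
  rw [Polynomial.eval_mul, Polynomial.eval_C, Polynomial.eval_mul, Polynomial.eval_pow,
    Polynomial.eval_pow, ← h]
  have h1 : Q.eval t ^ D = Q.eval t ^ j * Q.eval t ^ (D - j) := by
    rw [← pow_add, Nat.add_sub_cancel' hj']
  rw [h1, mul_pow]
  ring

/-- a shift operator on the polynomials of degree at most `C` in `τ` -/
structure Sh2 (τ : ℕ → k) (C δ : ℕ) (sh : ℕ → Polynomial k → Polynomial k)
    (w : ℕ → ℕ → k) : Prop where
  deg : ∀ n q, q.natDegree ≤ C → (sh n q).natDegree ≤ C * δ ^ n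
  w0 : ∀ n m, w n m ≠ 0
  ev : ∀ n q m, q.natDegree ≤ C → (sh n q).eval (τ m) = w n m * q.eval (τ (m + n))
  ne : ∀ n q, q.natDegree ≤ C → q ≠ 0 → sh n q ≠ 0

theorem exists_sh2 {τ : ℕ → k} (hτ : Function.Injective τ) {δ : ℕ} {g1 g2 : Polynomial k}
    (hg1 : g1.natDegree ≤ δ) (hg2 : g2.natDegree ≤ δ) (hg0 : ∀ m, g2.eval (τ m) ≠ 0)
    (hg : ∀ m, τ (m + 1) * g2.eval (τ m) = g1.eval (τ m)) (C : ℕ) :
    ∃ sh w, Sh2 τ C δ sh w := by
  have h1 : ∀ n, ∃ P Q : Polynomial k, P.natDegree ≤ δ ^ n ∧ Q.natDegree ≤ δ ^ n ∧
      ∀ m, Q.eval (τ m) ≠ 0 ∧ τ (m + n) * Q.eval (τ m) = P.eval (τ m) := by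
    intro n
    induction n with
    | zero => exact ⟨Polynomial.X, 1, by simp, by simp, fun m => by simp⟩
    | succ n ih =>
      obtain ⟨P, Q, hP, hQ, h2⟩ := ih
      refine ⟨hmg δ P Q g1, hmg δ P Q g2, ?_, ?_, fun m => ?_⟩
      · rw [pow_succ, mul_comm]
        exact hmg_deg hP hQ g1
      · rw [pow_succ, mul_comm]
        exact hmg_deg hP hQ g2
      · rw [hmg_eval hg1 (h2 m).2, hmg_eval hg2 (h2 m).2, ← add_assoc, ← hg (m + n)]
        exact ⟨mul_ne_zero (pow_ne_zero _ (h2 m).1) (hg0 _), by ring⟩
  choose P Q hP hQ hPQ using h1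
  refine ⟨fun n q => hmg C (P n) (Q n) q, fun n m => (Q n).eval (τ m) ^ C, ?_, ?_, ?_, ?_⟩
  · intro n q _
    exact hmg_deg (hP n) (hQ n) q
  · intro n m
    exact pow_ne_zero _ (hPQ n m).1
  · intro n q m hq
    exact hmg_eval hq (hPQ n m).2
  · intro n q hqC hq h0
    apply hq
    refine Polynomial.eq_zero_of_infinite_isRoot q (Set.Infinite.mono ?_
      (Set.infinite_range_of_injective (f := fun m => τ (m + n))
        fun a b hab => Nat.add_right_cancel (hτ hab)))
    rintro _ ⟨m, rfl⟩
    have h2 := hmg_eval hqC (hPQ n m).2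
    have h3 : (hmg C (P n) (Q n) q) = 0 := h0
    rw [h3, Polynomial.eval_zero] at h2
    exact (mul_eq_zero.1 h2.symm).resolve_left (pow_ne_zero _ (hPQ n m).1)

section rec

variable {R : Type} [Field R] [Algebra k R] (π : (ℕ → k) →ₐ[k] R)

theorem rec_rep2 (hπ : ∀ u : ℕ → k, (∀ᶠ m in atTop, u m = 0) → π u = 0)
    {τ : ℕ → k} (hτ : Function.Injective τ) {C δ : ℕ} {sh : ℕ → Polynomial k → Polynomial k}
    {w : ℕ → ℕ → k} (hsh : Sh2 τ C δ sh w) {f : ℕ → k} (hf : PRecD τ C f) :
    ∃ r : ℕ, ∀ n : ℕ, ∃ z : Polynomial k, z ≠ 0 ∧ z.natDegree ≤ C * S δ n ∧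
      ∃ b : Fin r → Polynomial k, (∀ l, (b l).natDegree ≤ C * S δ n) ∧
        Polynomial.aeval (π τ) z * π (fun m => f (m + n)) =
          ∑ l, Polynomial.aeval (π τ) (b l) * π (fun m => f (m + l)) := by
  classical
  obtain ⟨r, a, h1, h2, h3⟩ := hf.normal
  set t := π τ with ht
  have hrec : ∀ n : ℕ, ∑ i ∈ Finset.range (r + 1),
      Polynomial.aeval t (sh n (a i)) * π (fun m => f (m + (n + i))) = 0 := by
    intro n
    have h4 : (0 : R) = π (∑ i ∈ Finset.range (r + 1),
        (fun m : ℕ => (sh n (a i)).eval (τ m)) *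
          fun m : ℕ => f (m + (n + i))) := by
      rw [← map_zero π]
      congr 1
      funext m
      rw [Finset.sum_apply, Pi.zero_apply]
      have h5 := h3 (m + n)
      rw [← mul_zero (w n m), ← h5, Finset.mul_sum]
      refine Finset.sum_congr rfl fun i hi => ?_
      rw [Pi.mul_apply, hsh.ev n _ m (h2 i (by have := Finset.mem_range.1 hi; omega)), add_assoc,
        mul_assoc]
    rw [h4, map_sum]
    refine Finset.sum_congr rfl fun i _ => ?_
    rw [map_mul, ht, pi_poly]
  rcases Nat.eq_zero_or_pos r with h0 | hr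
  · refine ⟨0, fun n => ⟨1, one_ne_zero, by simp, fun l => l.elim0, fun l => l.elim0, ?_⟩⟩
    subst h0
    have h4 := hrec n
    rw [zero_add, Finset.sum_range_one, add_zero] at h4
    have h5 : sh n (a 0) ≠ 0 := by
      intro h6
      apply h1
      exact absurd h6 (hsh.ne n _ (h2 _ le_rfl) h1)
    have h6 : Polynomial.aeval t (sh n (a 0)) ≠ 0 := by
      rcases poly_ne_zero π hτ h5 with h7 | ⟨u, hu, hu'⟩
      · exact h7
      · exact absurd (hπ u hu) hu'
    rw [(mul_eq_zero.1 h4).resolve_left h6]
    simp
  · refine ⟨r, ?_⟩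
    have key : ∀ n : ℕ, ∃ z : Polynomial k, z ≠ 0 ∧ z.natDegree ≤ C * S δ n ∧
        ∀ i < r, ∃ b : Fin r → Polynomial k, (∀ l, (b l).natDegree ≤ C * S δ n) ∧
        Polynomial.aeval t z * π (fun m => f (m + (n + i))) =
          ∑ l, Polynomial.aeval t (b l) * π (fun m => f (m + l)) := by
      intro n
      induction n with
      | zero =>
        refine ⟨1, one_ne_zero, by simp, fun i hi => ⟨fun l => if l = ⟨i, hi⟩ then 1 else 0,
          fun l => ?_, ?_⟩⟩
        · by_cases hl : l = ⟨i, hi⟩
          · simp [hl]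
          · simp [hl]
        · rw [Finset.sum_eq_single ⟨i, hi⟩]
          · simp
          · intro l _ hl
            simp [hl]
          · intro h
            exact absurd (Finset.mem_univ _) h
      | succ n ih =>
        obtain ⟨z, hz, hzd, hb⟩ := ih
        have hT : sh n (a r) ≠ 0 := by
          intro h6
          apply h1
          exact absurd h6 (hsh.ne n _ (h2 _ le_rfl) h1)
        refine ⟨sh n (a r) * z, mul_ne_zero hT hz, ?_, ?_⟩
        · refine Polynomial.natDegree_mul_le.trans ?_
          have hdg := hsh.deg n (a r) (h2 r le_rfl)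
          have := h2 r le_rfl
          rw [S_succ, mul_add]
          omega
        · intro i hi
          rcases Nat.lt_or_ge (i + 1) r with hi' | hi'
          · obtain ⟨b, hb1, hb2⟩ := hb (i + 1) hi'
            refine ⟨fun l => sh n (a r) * b l, fun l => ?_, ?_⟩
            · refine Polynomial.natDegree_mul_le.trans ?_
              have hdg := hsh.deg n (a r) (h2 r le_rfl)
              have := h2 r le_rfl
              have := hb1 l
              rw [S_succ, mul_add]
              omega
            · have h4 : n + 1 + i = n + (i + 1) := by ring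
              rw [h4, map_mul, mul_assoc, hb2, Finset.mul_sum]
              refine Finset.sum_congr rfl fun l _ => ?_
              rw [map_mul, mul_assoc]
          · have h4 : n + 1 + i = n + r := by omega
            rw [h4]
            choose b hb1 hb2 using fun i' : Fin r => hb i' i'.2
            refine ⟨fun l => -∑ i' : Fin r, sh n (a i') * b i' l,
              fun l => ?_, ?_⟩
            · rw [Polynomial.natDegree_neg]
              refine Polynomial.natDegree_sum_le_of_forall_le _ _ fun i' _ => ?_
              refine Polynomial.natDegree_mul_le.trans ?_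
              have hdg := hsh.deg n (a i') (h2 i' i'.2.le)
              have := h2 i' i'.2.le
              have := hb1 i' l
              rw [S_succ, mul_add]
              omega
            · have h5 := hrec n
              rw [Finset.sum_range_succ, Finset.sum_range] at h5
              have h6 : ∑ l, Polynomial.aeval t
                  (-∑ i' : Fin r, sh n (a i') * b i' l)
                    * π (fun m => f (m + l))
                  = -∑ i' : Fin r, Polynomial.aeval t (sh n (a i')) *
                    (Polynomial.aeval t z * π (fun m => f (m + (n + i')))) := by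
                simp only [hb2, map_neg, map_sum, map_mul, neg_mul, Finset.sum_neg_distrib,
                  Finset.sum_mul, Finset.mul_sum]
                rw [Finset.sum_comm]
                congr 1
                refine Finset.sum_congr rfl fun i' _ => Finset.sum_congr rfl fun l _ => ?_
                ring
              rw [h6, map_mul]
              have h7 : ∑ i' : Fin r, Polynomial.aeval t (sh n (a i')) *
                    (Polynomial.aeval t z * π (fun m => f (m + (n + i'))))
                  = Polynomial.aeval t z * ∑ i' : Fin r,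
                    Polynomial.aeval t (sh n (a i')) *
                      π (fun m => f (m + (n + i'))) := by
                rw [Finset.mul_sum]
                refine Finset.sum_congr rfl fun i' _ => ?_
                ring
              rw [h7]
              linear_combination (Polynomial.aeval t z) * h5
    intro n
    obtain ⟨z, e1, e2, e3⟩ := key n
    obtain ⟨b, e4, e5⟩ := e3 0 hr
    exact ⟨z, e1, e2, b, e4, by simpa using e5⟩

end rec

end Pool.Agent.TH8.OR
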