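import Pool.Agent.TH8.OR.C

/-!
Orbits whose points have homogeneous coordinates satisfying linear recurrences: the degrees of the
iterates.
-/

set_option autoImplicit false

namespace Pool.Agent.TH8.OR

open MvPolynomial Filter

variable {k : Type} [Field k] {N : ℕ}

/-- The coordinates of the iterates of the rational map with the coordinates `F`. -/
noncomputable def iter (F : Fin (N + 1) → MvPolynomial (Fin (N + 1)) k) :
    ℕ → Fin (N + 1) → MvPolynomial (Fin (N + 1)) k
  | 0 => X
  | n + 1 => fun j => aeval F (iter F n j)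

/-- The `n`-th iterate of the rational map is given on the variety of `p` by forms of degree `e`
which do not all vanish on the variety. -/
def GivenBy (p : Ideal (MvPolynomial (Fin (N + 1)) k))
    (F : Fin (N + 1) → MvPolynomial (Fin (N + 1)) k) (n e : ℕ) : Prop :=
  ∃ G : Fin (N + 1) → MvPolynomial (Fin (N + 1)) k, (∀ j, (G j).IsHomogeneous e) ∧
    (∃ j, G j ∉ p) ∧ ∀ i j, G i * iter F n j - G j * iter F n i ∈ p

theorem eval_scale {H : MvPolynomial (Fin (N + 1)) k} {d : ℕ} (hH : H.IsHomogeneous d)
    (f : Fin (N + 1) → k) (c : k) : eval (fun j => c * f j) H = c ^ d * eval f H := by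
  rw [eval_eq', eval_eq', Finset.mul_sum]
  refine Finset.sum_congr rfl fun α hα => ?_
  have h2 : ∑ a, α a = d := by
    have := hH (mem_support_iff.1 hα)
    rw [← this, Finsupp.weight_apply, Finsupp.sum_fintype _ _ (by simp)]
    simp
  have h3 : ∏ a, (c * f a) ^ α a = c ^ d * ∏ a, f a ^ α a := by
    rw [← h2, ← Finset.prod_pow_eq_pow_sum, ← Finset.prod_mul_distrib]
    exact Finset.prod_congr rfl fun a _ => mul_pow _ _ _
  rw [h3]; ring

theorem iter_hom {F : Fin (N + 1) → MvPolynomial (Fin (N + 1)) k} {d : ℕ}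
    (hF : ∀ j, (F j).IsHomogeneous d) (n : ℕ) (j : Fin (N + 1)) :
    (iter F n j).IsHomogeneous (d ^ n) := by
  induction n generalizing j with
  | zero => simpa [iter] using isHomogeneous_X k j
  | succ n ih =>
    have h := (ih j).aeval F hF
    rw [pow_succ, mul_comm]
    exact h

theorem eval_aeval_F (F : Fin (N + 1) → MvPolynomial (Fin (N + 1)) k)
    (G : MvPolynomial (Fin (N + 1)) k) (v : Fin (N + 1) → k) :
    eval v (aeval F G) = eval (fun j => eval v (F j)) G := by
  have h := MvPolynomial.comp_aeval_apply (f := F) (aeval v : MvPolynomial (Fin (N + 1)) k →ₐ[k] k) G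
  simpa [MvPolynomial.aeval_eq_eval] using h

section orbit

variable {F : Fin (N + 1) → MvPolynomial (Fin (N + 1)) k} {d : ℕ}
  (hF : ∀ j, (F j).IsHomogeneous d) {x : ℕ → Fin (N + 1) → k} (hx0 : ∀ m, x m ≠ 0)
  (horb : ∀ m i j, eval (x m) (F i) * x (m + 1) j = eval (x m) (F j) * x (m + 1) i)

include hF hx0 horb

theorem orb (n m : ℕ) (i j : Fin (N + 1)) :
    eval (x m) (iter F n i) * x (m + n) j = eval (x m) (iter F n j) * x (m + n) i := by
  induction n generalizing m with
  | zero =>
    simp only [iter, eval_X, add_zero]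
    ring
  | succ n ih =>
    obtain ⟨j0, hj0⟩ := Function.ne_iff.1 (hx0 (m + 1))
    have hj0' : x (m + 1) j0 ≠ 0 := hj0
    have h1 : (fun j => eval (x m) (F j))
        = fun j => eval (x m) (F j0) / x (m + 1) j0 * x (m + 1) j := by
      funext j
      rw [div_mul_eq_mul_div, eq_div_iff hj0', horb m j j0]
    have h2 : ∀ i, eval (x m) (iter F (n + 1) i)
        = (eval (x m) (F j0) / x (m + 1) j0) ^ (d ^ n) * eval (x (m + 1)) (iter F n i) := by
      intro i
      change eval (x m) (aeval F (iter F n i)) = _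
      rw [eval_aeval_F, h1, eval_scale (iter_hom hF n i)]
    have h3 := ih (m + 1)
    have h4 : m + (n + 1) = m + 1 + n := by ring
    rw [h2, h2, h4, mul_assoc, h3, mul_assoc]

end orbit

section main

variable {p : Ideal (MvPolynomial (Fin (N + 1)) k)}
  {F : Fin (N + 1) → MvPolynomial (Fin (N + 1)) k} {d : ℕ}

theorem iter_notMem (hdom : ∀ (e : ℕ) (H : MvPolynomial (Fin (N + 1)) k), H.IsHomogeneous e →
    aeval F H ∈ p → H ∈ p) (hF : ∀ j, (F j).IsHomogeneous d) {j : Fin (N + 1)}
    (hj : X j ∉ p) (n : ℕ) : iter F n j ∉ p := by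
  induction n with
  | zero => exact hj
  | succ n ih => exact fun h => ih (hdom _ _ (iter_hom hF n j) h)

theorem assemble {τ : ℕ → k} (hτ : Function.Injective τ) {α β : k}
    (hαβ : ∀ m, τ (m + 1) = α * τ m + β) (hF : ∀ j, (F j).IsHomogeneous d)
    {x : ℕ → Fin (N + 1) → k} (hx0 : ∀ m, x m ≠ 0)
    (horb : ∀ m i j, eval (x m) (F i) * x (m + 1) j = eval (x m) (F j) * x (m + 1) i)
    (hit : ∀ n, ∃ j, iter F n j ∉ p)
    {R : Type} [Field R] [Algebra k R] (π : (ℕ → k) →ₐ[k] R)
    (hπ : ∀ u : ℕ → k, (∀ᶠ m in atTop, u m = 0) → π u = 0)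
    (hker : ∀ (e : ℕ) (G : MvPolynomial (Fin (N + 1)) k), G.IsHomogeneous e →
      (aeval (fun j => π fun m => x m j) G = 0 ↔ G ∈ p))
    {C : ℕ} (hrec : ∀ j, PRecD τ C (fun m => x m j)) :
    ∃ a b : ℕ, ((∀ r, Ind k (fun j => π fun m => x m j) (π τ) r) → b = 0) ∧
      ∀ n, ∃ e ≤ a + C * b * n, GivenBy p F n e := by
  classical
  obtain ⟨sh, hsh⟩ := exists_sh hτ hαβ
  choose r hr using fun j => rec_rep π hπ hτ hsh (hrec j)
  let u : ((j : Fin (N + 1)) × Fin (r j)) → R := fun q => π fun m => x (m + q.2) q.1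
  obtain ⟨D0, D1, E0, h1, h2⟩ := core (t := π τ) hker u
  refine ⟨D0 + D1 * E0, D1 * (N + 1), fun h => by rw [h1 h, zero_mul], fun n => ?_⟩
  choose z hz0 hzd b hbd hb using fun j => hr j n
  set t := π τ with ht
  have hZ0 : Polynomial.aeval t (∏ j, z j) ≠ 0 := by
    rcases poly_ne_zero π hτ (Finset.prod_ne_zero_iff.2 fun j _ => hz0 j) with h3 | ⟨w, hw, hw'⟩
    · exact h3
    · exact absurd (hπ w hw) hw'
  have hY0 : ∃ j, π (fun m => x (m + n) j) ≠ 0 := by
    by_contra hcon
    push Not at hcon
    choose jj hjj using fun m => Function.ne_iff.1 (hx0 (m + n))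
    have h3 : (1 : ℕ → k) = ∑ j, (fun m => if j = jj m then (x (m + n) j)⁻¹ else 0) *
        fun m => x (m + n) j := by
      funext m
      rw [Finset.sum_apply, Finset.sum_eq_single (jj m)]
      · have h4 : x (m + n) (jj m) ≠ 0 := hjj m
        simp [h4]
      · intro j _ hj
        simp [hj]
      · intro h
        exact absurd (Finset.mem_univ _) h
    have h4 := congrArg π h3
    rw [map_one, map_sum] at h4
    have h5 : ∀ j, π ((fun m => if j = jj m then (x (m + n) j)⁻¹ else 0) *
        fun m => x (m + n) j) = 0 := by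
      intro j
      rw [map_mul, hcon j, mul_zero]
    rw [Finset.sum_congr rfl fun j _ => h5 j, Finset.sum_const_zero] at h4
    exact one_ne_zero h4
  have hprod : ∀ s : Finset (Fin (N + 1)), (∏ j ∈ s, z j).natDegree ≤ s.card * (C * n) := by
    intro s
    refine (Polynomial.natDegree_prod_le s z).trans ?_
    refine (Finset.sum_le_card_nsmul s _ (C * n) fun j _ => hzd j).trans ?_
    rw [smul_eq_mul]
  obtain ⟨e, G, he, g1, g2, g3⟩ := h2 ((N + 1) * (C * n))
    (fun j => Polynomial.aeval t (∏ j, z j) * π fun m => x (m + n) j) (by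
      obtain ⟨j, hj⟩ := hY0
      intro h0
      exact mul_ne_zero hZ0 hj (congrFun h0 j)) (by
      intro j
      refine ⟨fun q => if q.1 = j then b q.1 q.2 * ∏ j' ∈ Finset.univ.erase q.1, z j' else 0,
        fun q => ?_, ?_⟩
      · by_cases hq : q.1 = j
        · simp only [hq, if_true]
          refine Polynomial.natDegree_mul_le.trans ?_
          have h4 := hprod (Finset.univ.erase j)
          rw [Finset.card_erase_of_mem (Finset.mem_univ _), Finset.card_univ, Fintype.card_fin,
            Nat.add_sub_cancel] at h4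
          have h5 : (b q.1 q.2).natDegree ≤ C * n := hbd q.1 q.2
          calc _ ≤ C * n + N * (C * n) := Nat.add_le_add h5 h4
            _ = (N + 1) * (C * n) := by ring
        · simp [hq]
      · rw [Fintype.sum_sigma, Finset.sum_eq_single j]
        · simp only [if_true]
          rw [← Finset.mul_prod_erase Finset.univ z (Finset.mem_univ j), map_mul, mul_right_comm,
            hb j, Finset.sum_mul]
          refine Finset.sum_congr rfl fun l _ => ?_
          rw [map_mul]
          ring
        · intro j' _ hj'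
          refine Finset.sum_eq_zero fun l _ => ?_
          simp [hj']
        · intro h
          exact absurd (Finset.mem_univ _) h)
    (d ^ n) (iter F n) (iter_hom hF n) (hit n) (by
      intro i j
      rw [pi_mv, pi_mv]
      have h4 : (fun m => eval (x m) (iter F n i)) * (fun m => x (m + n) j)
          = (fun m => eval (x m) (iter F n j)) * fun m => x (m + n) i := by
        funext m
        exact orb hF hx0 horb n m i j
      have h5 := congrArg π h4
      rw [map_mul, map_mul] at h5
      linear_combination (Polynomial.aeval t (∏ j, z j)) * h5)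
  exact ⟨e, by
    calc e ≤ _ := he
      _ = D0 + D1 * E0 + C * (D1 * (N + 1)) * n := by ring, G, g1, g2, g3⟩

end main

end Pool.Agent.TH8.OR
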