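import Pool.Agent.TH8.OR.C2

/-!
The degrees of the iterates, for recurrences with coefficients in the orbit of a rational function.
-/

set_option autoImplicit false

namespace Pool.Agent.TH8.OR

open MvPolynomial Filter

variable {k : Type} [Field k] {N : ℕ}

section main

variable {p : Ideal (MvPolynomial (Fin (N + 1)) k)}
  {F : Fin (N + 1) → MvPolynomial (Fin (N + 1)) k} {d : ℕ}

theorem assemble2 {τ : ℕ → k} (hτ : Function.Injective τ) {δ : ℕ} {g1 g2 : Polynomial k}
    (hg1 : g1.natDegree ≤ δ) (hg2 : g2.natDegree ≤ δ) (hg0 : ∀ m, g2.eval (τ m) ≠ 0)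
    (hg : ∀ m, τ (m + 1) * g2.eval (τ m) = g1.eval (τ m)) (hF : ∀ j, (F j).IsHomogeneous d)
    {x : ℕ → Fin (N + 1) → k} (hx0 : ∀ m, x m ≠ 0)
    (horb : ∀ m i j, eval (x m) (F i) * x (m + 1) j = eval (x m) (F j) * x (m + 1) i)
    (hit : ∀ n, ∃ j, iter F n j ∉ p)
    {R : Type} [Field R] [Algebra k R] (π : (ℕ → k) →ₐ[k] R)
    (hπ : ∀ u : ℕ → k, (∀ᶠ m in atTop, u m = 0) → π u = 0)
    (hker : ∀ (e : ℕ) (G : MvPolynomial (Fin (N + 1)) k), G.IsHomogeneous e →
      (aeval (fun j => π fun m => x m j) G = 0 ↔ G ∈ p))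
    {C : ℕ} (hrec : ∀ j, PRecD τ C (fun m => x m j)) :
    ∃ a b : ℕ, ((∀ r, Ind k (fun j => π fun m => x m j) (π τ) r) → b = 0) ∧
      ∀ n, ∃ e ≤ a + C * b * S δ n, GivenBy p F n e := by
  classical
  obtain ⟨sh, w, hsh⟩ := exists_sh2 hτ hg1 hg2 hg0 hg C
  choose r hr using fun j => rec_rep2 π hπ hτ hsh (hrec j)
  let u : ((j : Fin (N + 1)) × Fin (r j)) → R := fun q => π fun m => x (m + q.2) q.1
  obtain ⟨D0, D1, E0, h1, h2⟩ := core (t := π τ) hker u
  refine ⟨D0 + D1 * E0, D1 * (N + 1), fun h => by rw [h1 h, zero_mul], fun n => ?_⟩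
  choose z hz0 hzd b hbd hb using fun j => hr j n
  set t := π τ with ht
  have hZ0 : Polynomial.aeval t (∏ j, z j) ≠ 0 := by
    rcases poly_ne_zero π hτ (Finset.prod_ne_zero_iff.2 fun j _ => hz0 j) with h3 | ⟨w, hw, hw'⟩
    · exact h3
    · exact absurd (hπ w hw) hw'
  have hY0 : ∃ j, π (fun m => x (m + n) j) ≠ 0 := by
    by_contra hcon
    push Not at hcon
    choose jj hjj using fun m => Function.ne_iff.1 (hx0 (m + n))
    have h3 : (1 : ℕ → k) = ∑ j, (fun m => if j = jj m then (x (m + n) j)⁻¹ else 0) *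
        fun m => x (m + n) j := by
      funext m
      rw [Finset.sum_apply, Finset.sum_eq_single (jj m)]
      · have h4 : x (m + n) (jj m) ≠ 0 := hjj m
        simp [h4]
      · intro j _ hj
        simp [hj]
      · intro h
        exact absurd (Finset.mem_univ _) h
    have h4 := congrArg π h3
    rw [map_one, map_sum] at h4
    have h5 : ∀ j, π ((fun m => if j = jj m then (x (m + n) j)⁻¹ else 0) *
        fun m => x (m + n) j) = 0 := by
      intro j
      rw [map_mul, hcon j, mul_zero]
    rw [Finset.sum_congr rfl fun j _ => h5 j, Finset.sum_const_zero] at h4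
    exact one_ne_zero h4
  have hprod : ∀ s : Finset (Fin (N + 1)), (∏ j ∈ s, z j).natDegree ≤ s.card * (C * S δ n) := by
    intro s
    refine (Polynomial.natDegree_prod_le s z).trans ?_
    refine (Finset.sum_le_card_nsmul s _ (C * S δ n) fun j _ => hzd j).trans ?_
    rw [smul_eq_mul]
  obtain ⟨e, G, he, g1, g2, g3⟩ := h2 ((N + 1) * (C * S δ n))
    (fun j => Polynomial.aeval t (∏ j, z j) * π fun m => x (m + n) j) (by
      obtain ⟨j, hj⟩ := hY0
      intro h0
      exact mul_ne_zero hZ0 hj (congrFun h0 j)) (by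
      intro j
      refine ⟨fun q => if q.1 = j then b q.1 q.2 * ∏ j' ∈ Finset.univ.erase q.1, z j' else 0,
        fun q => ?_, ?_⟩
      · by_cases hq : q.1 = j
        · simp only [hq, if_true]
          refine Polynomial.natDegree_mul_le.trans ?_
          have h4 := hprod (Finset.univ.erase j)
          rw [Finset.card_erase_of_mem (Finset.mem_univ _), Finset.card_univ, Fintype.card_fin,
            Nat.add_sub_cancel] at h4
          have h5 : (b q.1 q.2).natDegree ≤ C * S δ n := hbd q.1 q.2
          calc _ ≤ C * S δ n + N * (C * S δ n) := Nat.add_le_add h5 h4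
            _ = (N + 1) * (C * S δ n) := by ring
        · simp [hq]
      · rw [Fintype.sum_sigma, Finset.sum_eq_single j]
        · simp only [if_true]
          rw [← Finset.mul_prod_erase Finset.univ z (Finset.mem_univ j), map_mul, mul_right_comm,
            hb j, Finset.sum_mul]
          refine Finset.sum_congr rfl fun l _ => ?_
          rw [map_mul]
          ring
        · intro j' _ hj'
          refine Finset.sum_eq_zero fun l _ => ?_
          simp [hj']
        · intro h
          exact absurd (Finset.mem_univ _) h)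
    (d ^ n) (iter F n) (iter_hom hF n) (hit n) (by
      intro i j
      rw [pi_mv, pi_mv]
      have h4 : (fun m => eval (x m) (iter F n i)) * (fun m => x (m + n) j)
          = (fun m => eval (x m) (iter F n j)) * fun m => x (m + n) i := by
        funext m
        exact orb hF hx0 horb n m i j
      have h5 := congrArg π h4
      rw [map_mul, map_mul] at h5
      linear_combination (Polynomial.aeval t (∏ j, z j)) * h5)
  exact ⟨e, by
    calc e ≤ _ := he
      _ = D0 + D1 * E0 + C * (D1 * (N + 1)) * S δ n := by ring, G, g1, g2, g3⟩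

end main

end Pool.Agent.TH8.OR
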