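import Pool.Agent.TH8.OR.D

/-!
Slow growth of the degrees of the iterates implies birationality.
-/

set_option autoImplicit false

namespace Pool.Agent.TH8.OR

open MvPolynomial Filter

variable {k : Type} [Field k] {N : ℕ}

/-- The rational map with the coordinates `F` has a rational inverse on the variety of `p`. -/
def Invertible (p : Ideal (MvPolynomial (Fin (N + 1)) k))
    (F : Fin (N + 1) → MvPolynomial (Fin (N + 1)) k) : Prop :=
  ∃ (e : ℕ) (G : Fin (N + 1) → MvPolynomial (Fin (N + 1)) k), (∀ j, (G j).IsHomogeneous e) ∧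
    (∃ j, aeval F (G j) ∉ p) ∧ ∀ i j, aeval F (G i) * X j - aeval F (G j) * X i ∈ p

variable {p : Ideal (MvPolynomial (Fin (N + 1)) k)}
  {F : Fin (N + 1) → MvPolynomial (Fin (N + 1)) k} {d : ℕ}

/-- products of the iterated coordinates -/
noncomputable def Om (F : Fin (N + 1) → MvPolynomial (Fin (N + 1)) k) (j j0 : Fin (N + 1)) :
    (n : ℕ) → (Fin n → Bool) → MvPolynomial (Fin (N + 1)) k
  | 0, _ => 1
  | n + 1, ε => (if ε 0 then X j else X j0) * aeval F (Om F j j0 n fun i => ε i.succ)

theorem Om_hom (hF : ∀ j, (F j).IsHomogeneous d) (j j0 : Fin (N + 1)) (n : ℕ) :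
    ∃ D, ∀ ε, (Om F j j0 n ε).IsHomogeneous D := by
  induction n with
  | zero => exact ⟨0, fun ε => isHomogeneous_one _ _⟩
  | succ n ih =>
    obtain ⟨D, hD⟩ := ih
    refine ⟨1 + d * D, fun ε => ?_⟩
    refine IsHomogeneous.mul ?_ ((hD _).aeval F hF)
    split_ifs
    · exact isHomogeneous_X k j
    · exact isHomogeneous_X k j0

theorem Om_eq (j j0 : Fin (N + 1)) (n : ℕ) (ε : Fin n → Bool) :
    Om F j j0 n ε = ∏ i : Fin n, iter F i (if ε i then j else j0) := by
  induction n with
  | zero => simp [Om]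
  | succ n ih =>
    rw [Om, ih, Fin.prod_univ_succ, map_prod]
    congr 1
    · simp only [Fin.val_zero, iter]
      split_ifs <;> rfl

theorem sum_split {n : ℕ} (g : (Fin (n + 1) → Bool) → MvPolynomial (Fin (N + 1)) k) :
    ∑ ε, g ε = ∑ ε, g (Fin.cons true ε) + ∑ ε, g (Fin.cons false ε) := by
  rw [← (Fin.consEquiv fun _ : Fin (n + 1) => Bool).sum_comp g, Fintype.sum_prod_type,
    Fintype.sum_bool]
  rfl

/-- The products are independent modulo `p` if the map is not invertible. -/
theorem Om_indep (hp : p.IsPrime) (hF : ∀ j, (F j).IsHomogeneous d)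
    (hdom : ∀ (e : ℕ) (H : MvPolynomial (Fin (N + 1)) k), H.IsHomogeneous e →
      (aeval F H ∈ p ↔ H ∈ p)) {j j0 : Fin (N + 1)} (hj0 : X j0 ∉ p)
    (hw : ∀ (e : ℕ) (A B : MvPolynomial (Fin (N + 1)) k), A.IsHomogeneous e → B.IsHomogeneous e →
      B ∉ p → X j * aeval F B - X j0 * aeval F A ∉ p) (n : ℕ) (a : (Fin n → Bool) → k)
    (ha : ∑ ε, C (a ε) * Om F j j0 n ε ∈ p) : ∀ ε, a ε = 0 := by
  classical
  induction n with
  | zero =>
    intro ε
    rw [Fintype.sum_unique] at ha
    simp only [Om, mul_one] at ha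
    by_contra hne
    have hall : ∀ ε', a ε' = a ε := fun ε' => congrArg a (Subsingleton.elim ε' ε)
    have ha' : C (a ε) ∈ p := by
      rw [hall] at ha
      exact ha
    apply hp.ne_top
    rw [Ideal.eq_top_iff_one]
    have h3 := p.mul_mem_left (C (a ε)⁻¹) ha'
    rwa [← C_mul, inv_mul_cancel₀ hne, C_1] at h3
  | succ n ih =>
    obtain ⟨D, hD⟩ := Om_hom hF j j0 n
    obtain ⟨P, hPdef⟩ : ∃ P : Bool → MvPolynomial (Fin (N + 1)) k, ∀ b, P b =
      ∑ ε : Fin n → Bool, C (a (Fin.cons b ε)) * Om F j j0 n ε := ⟨_, fun _ => rfl⟩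
    have hP : ∀ b, (P b).IsHomogeneous D := by
      intro b
      rw [hPdef]
      refine IsHomogeneous.sum _ _ _ fun ε _ => ?_
      have h := (isHomogeneous_C (Fin (N + 1)) (a (Fin.cons b ε))).mul (hD ε)
      rwa [zero_add] at h
    have hstep : ∀ (b : Bool) (Y : MvPolynomial (Fin (N + 1)) k),
        (∀ ε : Fin n → Bool, Om F j j0 (n + 1) (Fin.cons b ε) = Y * aeval F (Om F j j0 n ε)) →
        ∑ ε, C (a (Fin.cons b ε)) * Om F j j0 (n + 1) (Fin.cons b ε) = Y * aeval F (P b) := by
      intro b Y hY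
      rw [hPdef, map_sum, Finset.mul_sum]
      refine Finset.sum_congr rfl fun ε _ => ?_
      rw [hY, map_mul, algHom_C, algebraMap_eq]
      ring
    rw [sum_split, hstep true (X j) (fun ε => rfl), hstep false (X j0) (fun ε => rfl)] at ha
    have h1 : P true ∈ p := by
      by_contra hcon
      apply hw D (-P false) (P true) (hP false).neg (hP true) hcon
      rw [map_neg]
      have h2 : X j * aeval F (P true) - X j0 * -aeval F (P false)
          = X j * aeval F (P true) + X j0 * aeval F (P false) := by ring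
      rwa [h2]
    have h2 : P false ∈ p := by
      have h3 := p.sub_mem ha (p.mul_mem_left (X j) ((hdom _ _ (hP true)).2 h1))
      rw [add_sub_cancel_left] at h3
      exact (hdom _ _ (hP false)).1 ((hp.mem_or_mem h3).resolve_left hj0)
    rw [hPdef] at h1 h2
    have h3 := ih _ h1
    have h4 := ih _ h2
    intro ε
    have h5 : Fin.cons (ε 0) (fun i => ε i.succ) = ε := by
      funext i
      refine Fin.cases ?_ (fun i => ?_) i
      · rfl
      · rfl
    rw [← h5]
    rcases Bool.eq_false_or_eq_true (ε 0) with h6 | h6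
    · rw [h6]
      exact h3 _
    · rw [h6]
      exact h4 _

/-- a dimension count -/
theorem card_le {ι : Type} [Fintype ι] {D : ℕ} (W : ι → MvPolynomial (Fin (N + 1)) k)
    (hW : ∀ i, (W i).IsHomogeneous D) (hind : ∀ a : ι → k, ∑ i, C (a i) * W i = 0 → ∀ i, a i = 0) :
    Fintype.card ι ≤ (D + 1) ^ (N + 1) := by
  classical
  let c : ι → (Fin (N + 1) → Fin (D + 1)) → k := fun i α =>
    coeff (Finsupp.equivFunOnFinite.symm fun l => (α l : ℕ)) (W i)
  have hc : LinearIndependent k c := by
    rw [Fintype.linearIndependent_iff]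
    intro a ha
    apply hind
    have hsum : (∑ i, C (a i) * W i).IsHomogeneous D := by
      refine IsHomogeneous.sum _ _ _ fun i _ => ?_
      have h := (isHomogeneous_C (Fin (N + 1)) (a i)).mul (hW i)
      rwa [zero_add] at h
    ext s
    rw [coeff_zero]
    by_contra hne
    have h1 := hsum hne
    rw [Finsupp.weight_apply, Finsupp.sum_fintype _ _ (by simp)] at h1
    have h2 : ∀ l, s l < D + 1 := by
      intro l
      have h3 : s l ≤ ∑ i, s i • (1 : Fin (N + 1) → ℕ) i := by
        simp only [Pi.one_apply, smul_eq_mul, mul_one]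
        exact Finset.single_le_sum (fun i _ => Nat.zero_le (s i)) (Finset.mem_univ l)
      omega
    apply hne
    have h4 := congrFun ha fun l => ⟨s l, h2 l⟩
    rw [Finset.sum_apply, Pi.zero_apply] at h4
    rw [← h4, coeff_sum]
    refine Finset.sum_congr rfl fun i _ => ?_
    rw [coeff_C_mul, Pi.smul_apply, smul_eq_mul]
    congr 2
    ext l
    rfl
  have h := hc.fintype_card_le_finrank
  rw [Module.finrank_fintype_fun_eq_card, Fintype.card_fun, Fintype.card_fin, Fintype.card_fin] at h
  exact h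

theorem growth (a b L : ℕ) (h : ∀ n : ℕ, 2 ^ n ≤ (n * (a + b * n) + 1) ^ L) : False := by
  have h1 := (tendsto_pow_const_div_const_pow_of_one_lt (2 * L) (one_lt_two (α := ℝ))).comp
    (tendsto_add_atTop_nat 1)
  have hc : (0 : ℝ) < 1 / (2 * ((a + b + 1 : ℕ) : ℝ) ^ L) := by positivity
  obtain ⟨n, hn⟩ := (h1.eventually (gt_mem_nhds hc)).exists
  simp only [Function.comp] at hn
  rw [div_lt_div_iff₀ (by positivity) (by positivity)] at hn
  have h2 : (n * (a + b * n) + 1) ^ L ≤ ((a + b + 1) * (n + 1) ^ 2) ^ L := by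
    refine Nat.pow_le_pow_left ?_ L
    nlinarith [Nat.zero_le (a * n), Nat.zero_le (b * n), Nat.zero_le (a * n ^ 2)]
  have h3 := (h n).trans h2
  have h4 : ((2 : ℝ)) ^ n ≤ ((a + b + 1 : ℕ) : ℝ) ^ L * ((n + 1 : ℕ) : ℝ) ^ (2 * L) := by
    have h5 : (((2 ^ n : ℕ)) : ℝ) ≤ ((((a + b + 1) * (n + 1) ^ 2) ^ L : ℕ) : ℝ) := by
      exact_mod_cast h3
    push_cast at h5 ⊢
    rw [mul_pow, ← pow_mul] at h5
    exact h5
  rw [pow_succ] at hn
  linarith

/-- If the degrees of the iterates grow slowly then the map is invertible. -/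
theorem invertible_of_growth (hp : p.IsPrime) (hF : ∀ j, (F j).IsHomogeneous d)
    (hdom : ∀ (e : ℕ) (H : MvPolynomial (Fin (N + 1)) k), H.IsHomogeneous e →
      (aeval F H ∈ p ↔ H ∈ p)) {j0 : Fin (N + 1)} (hj0 : X j0 ∉ p)
    {a b : ℕ} (hgrow : ∀ n, ∃ e ≤ a + b * n, GivenBy p F n e) : Invertible p F := by
  classical
  by_cases hall : ∀ j, ∃ (e : ℕ) (A B : MvPolynomial (Fin (N + 1)) k), A.IsHomogeneous e ∧
      B.IsHomogeneous e ∧ B ∉ p ∧ X j * aeval F B - X j0 * aeval F A ∈ p
  · choose e A B h1 h2 h3 h4 using hall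
    have hQ : ∏ i, aeval F (B i) ∉ p := by
      intro hcon
      obtain ⟨i, _, hi⟩ := hp.prod_mem_iff.1 hcon
      exact h3 i ((hdom _ _ (h2 i)).1 hi)
    have hG : ∀ j, X j0 * aeval F (A j * ∏ i ∈ Finset.univ.erase j, B i)
        - X j * ∏ i, aeval F (B i) ∈ p := by
      intro j
      have h5 := p.mul_mem_left (-∏ i ∈ Finset.univ.erase j, aeval F (B i)) (h4 j)
      have h6 : ∏ i, aeval F (B i) = aeval F (B j) * ∏ i ∈ Finset.univ.erase j, aeval F (B i) :=
        (Finset.mul_prod_erase Finset.univ (fun i => aeval F (B i)) (Finset.mem_univ j)).symm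
      rw [h6, map_mul, map_prod]
      have h7 : X j0 * (aeval F (A j) * ∏ i ∈ Finset.univ.erase j, aeval F (B i))
          - X j * (aeval F (B j) * ∏ i ∈ Finset.univ.erase j, aeval F (B i))
          = -(∏ i ∈ Finset.univ.erase j, aeval F (B i)) *
            (X j * aeval F (B j) - X j0 * aeval F (A j)) := by ring
      rw [h7]
      exact h5
    refine ⟨∑ i, e i, fun j => A j * ∏ i ∈ Finset.univ.erase j, B i, fun j => ?_, ⟨j0, ?_⟩, ?_⟩
    · rw [← Finset.add_sum_erase Finset.univ e (Finset.mem_univ j)]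
      exact (h1 j).mul (IsHomogeneous.prod _ _ _ fun i _ => h2 i)
    · intro hcon
      have h5 := p.sub_mem (p.mul_mem_left (X j0) hcon) (hG j0)
      rw [sub_sub_cancel] at h5
      exact hQ ((hp.mem_or_mem h5).resolve_left hj0)
    · intro i j
      have h5 := p.sub_mem (p.mul_mem_left (X j) (hG i)) (p.mul_mem_left (X i) (hG j))
      refine (hp.mem_or_mem (?_ : X j0 * _ ∈ p)).resolve_left hj0
      have h6 : X j0 * (aeval F (A i * ∏ l ∈ Finset.univ.erase i, B l) * X j
          - aeval F (A j * ∏ l ∈ Finset.univ.erase j, B l) * X i)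
          = X j * (X j0 * aeval F (A i * ∏ l ∈ Finset.univ.erase i, B l)
            - X i * ∏ l, aeval F (B l))
          - X i * (X j0 * aeval F (A j * ∏ l ∈ Finset.univ.erase j, B l)
            - X j * ∏ l, aeval F (B l)) := by ring
      rw [h6]
      exact h5
  · exfalso
    push Not at hall
    obtain ⟨j, hj⟩ := hall
    choose e he G g1 g2 g3 using hgrow
    have hGj0 : ∀ i, G i j0 ∉ p := by
      intro i hcon
      obtain ⟨l, hl⟩ := g2 i
      have h5 := p.add_mem (g3 i l j0) (p.mul_mem_right (iter F i l) hcon)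
      rw [sub_add_cancel] at h5
      exact (hp.mem_or_mem h5).elim hl (iter_notMem (fun e H hH => (hdom e H hH).1) hF hj0 i)
    refine growth a b (N + 1) fun n => ?_
    have hcard := card_le (k := k) (fun ε : Fin n → Bool =>
      ∏ i : Fin n, G i (if ε i then j else j0)) (D := ∑ i : Fin n, e i)
      (fun ε => IsHomogeneous.prod _ _ _ fun i _ => g1 i _) (by
        intro c hc
        refine Om_indep hp hF hdom hj0 (fun e A B hA hB hBp => hj e A B hA hB hBp) n c ?_
        have h5 : (∑ ε, C (c ε) * Om F j j0 n ε) * ∏ i : Fin n, G i j0 ∈ p := by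
          rw [← Ideal.Quotient.eq_zero_iff_mem, map_mul, map_sum, map_prod, Finset.sum_mul]
          have h6 := congrArg (fun z => Ideal.Quotient.mk p z *
            ∏ i : Fin n, Ideal.Quotient.mk p (iter F i j0)) hc
          simp only [map_zero, zero_mul, map_sum, Finset.sum_mul] at h6
          rw [← h6]
          refine Finset.sum_congr rfl fun ε _ => ?_
          rw [map_mul, map_mul, mul_assoc, mul_assoc, Om_eq, map_prod, map_prod,
            ← Finset.prod_mul_distrib, ← Finset.prod_mul_distrib]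
          congr 1
          refine Finset.prod_congr rfl fun i _ => ?_
          have h7 := g3 i (if ε i then j else j0) j0
          rw [← Ideal.Quotient.eq_zero_iff_mem, map_sub, map_mul, map_mul, sub_eq_zero] at h7
          rw [h7, mul_comm]
        refine (hp.mem_or_mem h5).resolve_right fun hcon => ?_
        obtain ⟨i, _, hi⟩ := hp.prod_mem_iff.1 hcon
        exact hGj0 i hi)
    rw [Fintype.card_fun, Fintype.card_bool, Fintype.card_fin] at hcard
    refine hcard.trans (Nat.pow_le_pow_left ?_ _)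
    have h8 : ∑ i : Fin n, e i ≤ n * (a + b * n) := by
      refine (Finset.sum_le_card_nsmul Finset.univ _ (a + b * n) fun i _ => ?_).trans ?_
      · exact (he i).trans (by have := i.2.le; gcongr)
      · rw [Finset.card_univ, Fintype.card_fin, smul_eq_mul]
    omega

end Pool.Agent.TH8.OR
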